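import Pool.Agent.Q32.Ov.Log
import Mathlib.NumberTheory.LSeries.DirichletContinuation
import Mathlib.NumberTheory.LSeries.Dirichlet
import Mathlib.NumberTheory.LSeries.Nonvanishing

set_option autoImplicit false

/-! # Windows for Dirichlet characters -/

open Filter Topology Set MeasureTheory Complex

namespace Pool.Agent.Q32.Ov

variable {q : ℕ} [NeZero q]

open Classical in
/-- `1` for the trivial character, `0` otherwise. -/
noncomputable def kap (χ : DirichletCharacter ℂ q) : ℂ := if χ = 1 then 1 else 0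

open Classical in
/-- The entire function `(s-1)^κ L(s,χ)`. -/
noncomputable def EF (χ : DirichletCharacter ℂ q) : ℂ → ℂ :=
  if χ = 1 then DirichletCharacter.LFunctionTrivChar₁ q else DirichletCharacter.LFunction χ

theorem EF_diff (χ : DirichletCharacter ℂ q) : Differentiable ℂ (EF χ) := by
  rw [EF]
  split_ifs with h
  · exact DirichletCharacter.differentiable_LFunctionTrivChar₁ q
  · exact DirichletCharacter.differentiable_LFunction h

theorem EF_triv {s : ℂ} (hs : s ≠ 1) : EF (1 : DirichletCharacter ℂ q) s =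
    (s - 1) * DirichletCharacter.LFunction (1 : DirichletCharacter ℂ q) s := by
  rw [EF, if_pos rfl, DirichletCharacter.LFunctionTrivChar₁, Function.update_of_ne hs]

theorem EF_zero_iff (χ : DirichletCharacter ℂ q) {s : ℂ} (hs : s ≠ 1) :
    EF χ s = 0 ↔ DirichletCharacter.LFunction χ s = 0 := by
  by_cases h : χ = 1
  · subst h
    rw [EF_triv hs, mul_eq_zero]
    simp [sub_ne_zero.2 hs]
  · rw [EF, if_neg h]

theorem EF_one (χ : DirichletCharacter ℂ q) : EF χ 1 ≠ 0 := by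
  rw [EF]
  split_ifs with h
  · exact DirichletCharacter.LFunctionTrivChar₁_apply_one_ne_zero q
  · exact DirichletCharacter.LFunction_apply_one_ne_zero h

theorem EF_ne (χ : DirichletCharacter ℂ q) {s : ℂ} (hs : 1 < s.re) : EF χ s ≠ 0 := by
  have hs1 : s ≠ 1 := by
    rintro rfl
    simp at hs
  rw [Ne, EF_zero_iff χ hs1]
  exact DirichletCharacter.LFunction_ne_zero_of_one_le_re χ (Or.inr hs1) hs.le

theorem EF_log (χ : DirichletCharacter ℂ q) {s : ℂ} (hs : 1 < s.re) :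
    deriv (EF χ) s / EF χ s = deriv (DirichletCharacter.LFunction χ) s / DirichletCharacter.LFunction χ s +
      kap χ / (s - 1) := by
  have hs1 : s ≠ 1 := by
    rintro rfl
    simp at hs
  have hL : DirichletCharacter.LFunction χ s ≠ 0 :=
    DirichletCharacter.LFunction_ne_zero_of_one_le_re χ (Or.inr hs1) hs.le
  by_cases h : χ = 1
  · subst h
    have h1 : deriv (EF (1 : DirichletCharacter ℂ q)) s =
        (s - 1) * deriv (DirichletCharacter.LFunction (1 : DirichletCharacter ℂ q)) s +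
          DirichletCharacter.LFunction (1 : DirichletCharacter ℂ q) s := by
      rw [EF, if_pos rfl]
      exact DirichletCharacter.deriv_LFunctionTrivChar₁_apply_of_ne_one q hs1
    rw [h1, EF_triv hs1, kap, if_pos rfl]
    have h2 : s - 1 ≠ 0 := sub_ne_zero.2 hs1
    field_simp
  · rw [EF, if_neg h, kap, if_neg h, zero_div, add_zero]

/-- trivial bound -/
theorem isBigO_sum {a : ℕ → ℂ} (ha : ∀ n, ‖a n‖ ≤ n) :
    (fun n : ℕ => ∑ k ∈ Finset.Icc 1 n, a k) =O[atTop] fun n => (n : ℝ) ^ (2 : ℝ) := by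
  refine Asymptotics.IsBigO.of_bound 1 (Eventually.of_forall fun n => ?_)
  rw [one_mul, Real.norm_of_nonneg (by positivity)]
  calc ‖∑ k ∈ Finset.Icc 1 n, a k‖ ≤ ∑ k ∈ Finset.Icc 1 n, ‖a k‖ := norm_sum_le _ _
    _ ≤ ∑ k ∈ Finset.Icc 1 n, (n : ℝ) := Finset.sum_le_sum fun k hk =>
        (ha k).trans (by exact_mod_cast (Finset.mem_Icc.1 hk).2)
    _ = (n : ℝ) ^ (2 : ℝ) := by
        rw [Finset.sum_const, Nat.card_Icc, nsmul_eq_mul, Nat.add_sub_cancel]
        rw [show (2 : ℝ) = ((2 : ℕ) : ℝ) by norm_num, Real.rpow_natCast, sq]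

theorem sum_bd {a : ℕ → ℂ} (ha : ∀ n, ‖a n‖ ≤ n) (y : ℝ) (hy : 1 ≤ y) :
    ‖∑ k ∈ Finset.Icc 1 ⌊y⌋₊, a k‖ ≤ 1 * y ^ (2 : ℝ) := by
  have hy0 : 0 ≤ y := by linarith
  rw [one_mul]
  calc ‖∑ k ∈ Finset.Icc 1 ⌊y⌋₊, a k‖ ≤ ∑ k ∈ Finset.Icc 1 ⌊y⌋₊, ‖a k‖ := norm_sum_le _ _
    _ ≤ ∑ k ∈ Finset.Icc 1 ⌊y⌋₊, y := Finset.sum_le_sum fun k hk =>
        (ha k).trans ((by exact_mod_cast (Finset.mem_Icc.1 hk).2 : (k : ℝ) ≤ ⌊y⌋₊).trans (Nat.floor_le hy0))
    _ = ⌊y⌋₊ * y := by rw [Finset.sum_const, Nat.card_Icc, nsmul_eq_mul, Nat.add_sub_cancel]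
    _ ≤ y * y := mul_le_mul_of_nonneg_right (Nat.floor_le hy0) hy0
    _ = y ^ (2 : ℝ) := by
        rw [show (2 : ℝ) = ((2 : ℕ) : ℝ) by norm_num, Real.rpow_natCast, sq]

/-- the twisted Möbius function -/
noncomputable def mu (χ : DirichletCharacter ℂ q) (n : ℕ) : ℂ := χ n * ((ArithmeticFunction.moebius n : ℤ) : ℂ)

/-- the twisted von Mangoldt function -/
noncomputable def lam (χ : DirichletCharacter ℂ q) (n : ℕ) : ℂ := χ n * ((ArithmeticFunction.vonMangoldt n : ℝ) : ℂ)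

theorem mu_bd (χ : DirichletCharacter ℂ q) (n : ℕ) : ‖mu χ n‖ ≤ n := by
  rcases Nat.eq_zero_or_pos n with rfl | hn
  · simp [mu]
  · have h1 : ‖mu χ n‖ ≤ 1 := by
      rw [mu, norm_mul]
      refine mul_le_one₀ (χ.norm_le_one _) (norm_nonneg _) ?_
      have := ArithmeticFunction.abs_moebius_le_one (n := n)
      rw [Complex.norm_intCast]
      exact_mod_cast this
    exact h1.trans (by exact_mod_cast hn)

theorem lam_bd (χ : DirichletCharacter ℂ q) (n : ℕ) : ‖lam χ n‖ ≤ n := by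
  rcases Nat.eq_zero_or_pos n with rfl | hn
  · simp [lam]
  · have hn0 : (0 : ℝ) < n := by exact_mod_cast hn
    rw [lam, norm_mul, Complex.norm_real, Real.norm_of_nonneg ArithmeticFunction.vonMangoldt_nonneg]
    calc ‖χ n‖ * ArithmeticFunction.vonMangoldt n ≤ 1 * ArithmeticFunction.vonMangoldt n :=
          mul_le_mul_of_nonneg_right (χ.norm_le_one _) ArithmeticFunction.vonMangoldt_nonneg
      _ = ArithmeticFunction.vonMangoldt n := one_mul _
      _ ≤ Real.log n := ArithmeticFunction.vonMangoldt_le_log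
      _ ≤ n - 1 := Real.log_le_sub_one_of_pos hn0
      _ ≤ n := by linarith

theorem mu_mellin (χ : DirichletCharacter ℂ q) {s : ℂ} (hs : 2 < s.re) :
    EF χ s * (s * ∫ y in Ioi (1 : ℝ), (∑ k ∈ Finset.Icc 1 ⌊y⌋₊, mu χ k) * (y : ℂ) ^ (-(s + 1))) =
      1 + kap χ * (s - 2) := by
  have hs0 : 1 < s.re := by linarith
  have hs1 : s ≠ 1 := by
    rintro rfl
    simp at hs0
  have hS : LSeriesSummable (mu χ) s :=
    DirichletCharacter.LSeriesSummable_mul χ (ArithmeticFunction.LSeriesSummable_moebius_iff.mpr hs0)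
  rw [mellin_sum (by norm_num : (0 : ℝ) ≤ 2) hs hS (isBigO_sum (mu_bd χ))]
  have h1 := DirichletCharacter.LSeries.mul_mu_eq_one χ hs0
  rw [← DirichletCharacter.LFunction_eq_LSeries χ hs0] at h1
  have h2 : DirichletCharacter.LFunction χ s * LSeries (mu χ) s = 1 := h1
  by_cases h : χ = 1
  · subst h
    rw [EF_triv hs1, mul_assoc, h2, kap, if_pos rfl]
    ring
  · rw [EF, if_neg h, h2, kap, if_neg h]
    ring

theorem lam_mellin (χ : DirichletCharacter ℂ q) {s : ℂ} (hs : 2 < s.re) :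
    s * ∫ y in Ioi (1 : ℝ), (∑ k ∈ Finset.Icc 1 ⌊y⌋₊, lam χ k) * (y : ℂ) ^ (-(s + 1)) =
      kap χ / (s - 1) - deriv (EF χ) s / EF χ s := by
  have hs0 : 1 < s.re := by linarith
  have hS : LSeriesSummable (lam χ) s := DirichletCharacter.LSeriesSummable_twist_vonMangoldt χ hs0
  rw [mellin_sum (by norm_num : (0 : ℝ) ≤ 2) hs hS (isBigO_sum (lam_bd χ)), EF_log χ hs0]
  have h1 := DirichletCharacter.LSeries_twist_vonMangoldt_eq χ hs0
  rw [← DirichletCharacter.LFunction_eq_LSeries χ hs0, ← DirichletCharacter.deriv_LFunction_eq_deriv_LSeries χ hs0] at h1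
  have h2 : LSeries (lam χ) s = -deriv (DirichletCharacter.LFunction χ) s / DirichletCharacter.LFunction χ s := h1
  rw [h2]
  ring

/-- **Windows for Möbius sums.** -/
theorem mu_window (χ : DirichletCharacter ℂ q) {ρ : ℂ} (h0 : DirichletCharacter.LFunction χ ρ = 0) (h1 : ρ ≠ 1)
    {θ δ : ℝ} (hc : θ < ρ.re) (hd : 0 < δ) :
    ∀ᶠ X : ℝ in atTop, ∃ y ∈ Icc (X ^ (1 - δ)) X, y ^ θ < ‖∑ k ∈ Finset.Icc 1 ⌊y⌋₊, mu χ k‖ := by
  refine mellin_window (measurable_sum (mu χ)) (sum_bd (mu_bd χ)) (ρ := ρ) (fun R => ?_) hc hd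
  refine ⟨fun s => EF χ s * s, fun s => 1 + kap χ * (s - 2), ((EF_diff χ).mul differentiable_id).differentiableOn,
    (by fun_prop : Differentiable ℂ fun s : ℂ => 1 + kap χ * (s - 2)).differentiableOn, ?_, ?_, ?_⟩
  · beta_reduce
    rw [(EF_zero_iff χ h1).2 h0, zero_mul]
  · beta_reduce
    rw [kap]
    split_ifs
    · rw [one_mul, show (1 : ℂ) + (ρ - 2) = ρ - 1 by ring]
      exact sub_ne_zero.2 h1
    · simp
  · intro s _ hs
    rw [mul_assoc]
    exact mu_mellin χ hs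

end Pool.Agent.Q32.Ov
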