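import Pool.Agent.Q32.Ov.Psi
import Mathlib.NumberTheory.DirichletCharacter.Orthogonality

set_option autoImplicit false

/-! # Windows for class functions modulo `q` -/

open Filter Topology Set MeasureTheory Complex

namespace Pool.Agent.Q32.Ov

/-- absorbing constants -/
theorem window_scale {g : ℝ → ℝ} {K b θ δ : ℝ} (hK : 0 < K) (hθ : θ < b) (hd1 : δ < 1)
    (h : ∀ᶠ X : ℝ in atTop, ∃ y ∈ Icc (X ^ (1 - δ)) X, y ^ b < K * g y) :
    ∀ᶠ X : ℝ in atTop, ∃ y ∈ Icc (X ^ (1 - δ)) X, y ^ θ < g y := by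
  have h1 : Tendsto (fun X : ℝ => X ^ (1 - δ)) atTop atTop := tendsto_rpow_atTop (by linarith)
  have h2 : ∀ᶠ y : ℝ in atTop, K ≤ y ^ (b - θ) :=
    (tendsto_rpow_atTop (by linarith : 0 < b - θ)).eventually_ge_atTop K
  obtain ⟨y₀, hy₀⟩ := eventually_atTop.1 h2
  filter_upwards [h, h1.eventually_ge_atTop (max y₀ 1)] with X hX hX1
  obtain ⟨y, hy, hy2⟩ := hX
  refine ⟨y, hy, ?_⟩
  have hy1 : 1 ≤ y := (le_max_right _ _).trans (hX1.trans hy.1)
  have hy0 : 0 < y := by linarith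
  have h3 := hy₀ y ((le_max_left _ _).trans (hX1.trans hy.1))
  have h4 : K * y ^ θ ≤ y ^ b := by
    calc K * y ^ θ ≤ y ^ (b - θ) * y ^ θ := mul_le_mul_of_nonneg_right h3 (Real.rpow_nonneg hy0.le _)
      _ = y ^ b := by rw [← Real.rpow_add hy0]; congr 1; ring
  exact lt_of_mul_lt_mul_left (h4.trans_lt hy2) hK.le

variable {q : ℕ} [NeZero q]

/-- Fourier coefficient of a class function -/
noncomputable def hat (f : (ZMod q)ˣ → ℂ) (χ : DirichletCharacter ℂ q) : ℂ := ∑ u : (ZMod q)ˣ, f u * χ ((u : ZMod q)⁻¹)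

/-- extension to the integers -/
noncomputable def ext (f : (ZMod q)ˣ → ℂ) (n : ℕ) : ℂ := ∑ u : (ZMod q)ˣ, if (u : ZMod q) = n then f u else 0

theorem hat_inv (f : (ZMod q)ˣ → ℂ) (n : ℕ) : ∑ χ : DirichletCharacter ℂ q, hat f χ * χ n = q.totient * ext f n := by
  classical
  simp_rw [hat, Finset.sum_mul]
  rw [Finset.sum_comm, ext, Finset.mul_sum]
  refine Finset.sum_congr rfl fun u _ => ?_
  have h1 := DirichletCharacter.sum_char_inv_mul_char_eq ℂ (Units.isUnit u) (n : ZMod q)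
  have h2 : ∑ χ : DirichletCharacter ℂ q, f u * χ ((u : ZMod q)⁻¹) * χ n =
      f u * ∑ χ : DirichletCharacter ℂ q, χ ((u : ZMod q)⁻¹) * χ n := by
    rw [Finset.mul_sum]
    exact Finset.sum_congr rfl fun χ _ => by ring
  rw [h2, h1]
  split_ifs
  · ring
  · ring

theorem hat_one (f : (ZMod q)ˣ → ℂ) : hat f 1 = ∑ u, f u := by
  rw [hat]
  refine Finset.sum_congr rfl fun u _ => ?_
  rw [ZMod.inv_coe_unit, MulChar.one_apply_coe, mul_one]

/-- the error term for the class function -/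
noncomputable def cE (f : (ZMod q)ˣ → ℂ) (y : ℝ) : ℂ :=
  (∑ n ∈ Finset.Icc 1 ⌊y⌋₊, ext f n * ((ArithmeticFunction.vonMangoldt n : ℝ) : ℂ)) - (∑ u, f u) / q.totient * y

theorem cE_eq (f : (ZMod q)ˣ → ℂ) (y : ℝ) : ∑ χ, hat f χ * psiE χ y = q.totient * cE f y := by
  classical
  have ht : (q.totient : ℂ) ≠ 0 := by
    exact_mod_cast (Nat.totient_pos.2 (Nat.pos_of_ne_zero (NeZero.ne q))).ne'
  simp_rw [psiE, mul_sub]
  rw [Finset.sum_sub_distrib, cE, mul_sub]
  congr 1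
  · simp_rw [Finset.mul_sum]
    rw [Finset.sum_comm]
    refine Finset.sum_congr rfl fun n _ => ?_
    rw [← mul_assoc, ← hat_inv, Finset.sum_mul]
    refine Finset.sum_congr rfl fun χ _ => ?_
    rw [lam]
    ring
  · rw [Finset.sum_eq_single (1 : DirichletCharacter ℂ q)]
    · rw [hat_one, kap, if_pos rfl]
      field_simp
    · intro χ _ hχ
      rw [kap, if_neg hχ]
      ring
    · intro h
      exact absurd (Finset.mem_univ _) h

/-- **Windows for class functions.** -/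
theorem class_window (f : (ZMod q)ˣ → ℂ) {ρ : ℂ} (h1 : ρ ≠ 1)
    (hρ : ∑ χ, hat f χ * (analyticOrderNatAt (DirichletCharacter.LFunction χ) ρ) ≠ 0)
    {θ δ : ℝ} (hc : θ < ρ.re) (hd : 0 < δ) (hd1 : δ < 1) :
    ∀ᶠ X : ℝ in atTop, ∃ y ∈ Icc (X ^ (1 - δ)) X, y ^ θ < ‖cE f y‖ := by
  have hb : (θ + ρ.re) / 2 < ρ.re := by linarith
  have hw := psi_window (hat f) h1 hρ hb hd
  refine window_scale (K := q.totient) (b := (θ + ρ.re) / 2)
    (by exact_mod_cast Nat.totient_pos.2 (Nat.pos_of_ne_zero (NeZero.ne q))) (by linarith) hd1 ?_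
  filter_upwards [hw] with X hX
  obtain ⟨y, hy, hy2⟩ := hX
  refine ⟨y, hy, ?_⟩
  rw [cE_eq, norm_mul, Complex.norm_natCast] at hy2
  exact hy2

theorem order_pos {F : ℂ → ℂ} {ρ : ℂ} (hF : AnalyticAt ℂ F ρ) (h0 : F ρ = 0) (hne : analyticOrderAt F ρ ≠ ⊤) :
    0 < analyticOrderNatAt F ρ := by
  rw [Nat.pos_iff_ne_zero]
  intro h
  have h2 : analyticOrderAt F ρ = 0 := by
    rw [← Nat.cast_analyticOrderNatAt hne, h]
    rfl
  exact (hF.analyticOrderAt_eq_zero).1 h2 h0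

theorem L_order_pos (χ : DirichletCharacter ℂ q) {ρ : ℂ} (h1 : ρ ≠ 1)
    (h0 : DirichletCharacter.LFunction χ ρ = 0) : 0 < analyticOrderNatAt (DirichletCharacter.LFunction χ) ρ := by
  rw [← order_EF χ h1]
  refine order_pos ((EF_diff χ).analyticAt ρ) ((EF_zero_iff χ h1).2 h0) ?_
  intro htop
  rw [analyticOrderAt_eq_top] at htop
  have h3 : AnalyticOnNhd ℂ (EF χ) Set.univ := fun x _ => (EF_diff χ).analyticAt x
  have h4 := h3.eqOn_zero_of_preconnected_of_eventuallyEq_zero isPreconnected_univ (Set.mem_univ ρ) htop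
  exact EF_ne χ (s := 2) (by norm_num) (h4 (Set.mem_univ 2))

/-- positive definite class functions: no cancellation -/
theorem pos_def (f : (ZMod q)ˣ → ℂ) {w : DirichletCharacter ℂ q → ℝ} (hw : ∀ χ, 0 ≤ w χ) (hf : ∀ χ, hat f χ = w χ)
    {χ : DirichletCharacter ℂ q} (hχ : 0 < w χ) {ρ : ℂ} (h1 : ρ ≠ 1) (h0 : DirichletCharacter.LFunction χ ρ = 0) :
    ∑ χ, hat f χ * (analyticOrderNatAt (DirichletCharacter.LFunction χ) ρ) ≠ 0 := by
  have h2 : ∑ χ, hat f χ * (analyticOrderNatAt (DirichletCharacter.LFunction χ) ρ) =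
      ((∑ χ, w χ * (analyticOrderNatAt (DirichletCharacter.LFunction χ) ρ) : ℝ) : ℂ) := by
    push_cast
    exact Finset.sum_congr rfl fun χ _ => by rw [hf χ]
  rw [h2]
  have h3 : 0 < w χ * (analyticOrderNatAt (DirichletCharacter.LFunction χ) ρ) := by
    have := L_order_pos χ h1 h0
    positivity
  have h4 : w χ * (analyticOrderNatAt (DirichletCharacter.LFunction χ) ρ) ≤
      ∑ χ, w χ * (analyticOrderNatAt (DirichletCharacter.LFunction χ) ρ) :=
    Finset.single_le_sum (f := fun χ => w χ * (analyticOrderNatAt (DirichletCharacter.LFunction χ) ρ))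
      (fun i _ => mul_nonneg (hw i) (Nat.cast_nonneg _)) (Finset.mem_univ χ)
  exact_mod_cast (h3.trans_le h4).ne'

open Classical in
/-- indicator of a subgroup -/
noncomputable def ind (H : Subgroup (ZMod q)ˣ) (u : (ZMod q)ˣ) : ℂ := if u ∈ H then 1 else 0

theorem hat_ind_nontriv (H : Subgroup (ZMod q)ˣ) {χ : DirichletCharacter ℂ q} {v : (ZMod q)ˣ} (hv : v ∈ H)
    (hχ : χ (v : ZMod q) ≠ 1) : hat (ind H) χ = 0 := by
  classical
  have h1 : hat (ind H) χ = ∑ u : (ZMod q)ˣ, ind H (u * v) * χ (((u * v : (ZMod q)ˣ) : ZMod q)⁻¹) := by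
    rw [hat]
    exact (Fintype.sum_equiv (Equiv.mulRight v) _ _ fun u => rfl).symm
  have h2 : ∀ u : (ZMod q)ˣ, ind H (u * v) * χ (((u * v : (ZMod q)ˣ) : ZMod q)⁻¹) =
      (ind H u * χ ((u : ZMod q)⁻¹)) * χ ((v : ZMod q)⁻¹) := by
    intro u
    have h3 : ind H (u * v) = ind H u := by
      rw [ind, ind]
      exact if_congr (H.mul_mem_cancel_right hv) rfl rfl
    rw [h3, ZMod.inv_coe_unit, mul_inv_rev, mul_comm v⁻¹, Units.val_mul, map_mul, ZMod.inv_coe_unit, ZMod.inv_coe_unit]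
    ring
  rw [Finset.sum_congr rfl fun u _ => h2 u, ← Finset.sum_mul] at h1
  have h4 : hat (ind H) χ * (1 - χ ((v : ZMod q)⁻¹)) = 0 := by
    have h5 : hat (ind H) χ = hat (ind H) χ * χ ((v : ZMod q)⁻¹) := h1
    linear_combination h5
  rcases mul_eq_zero.1 h4 with h | h
  · exact h
  · exfalso
    apply hχ
    have h6 : χ ((v : ZMod q)⁻¹) = 1 := by linear_combination -h
    have h7 : χ (v : ZMod q) * χ ((v : ZMod q)⁻¹) = 1 := by
      rw [ZMod.inv_coe_unit, ← map_mul, ← Units.val_mul, mul_inv_cancel, Units.val_one, map_one]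
    rwa [h6, mul_one] at h7

theorem hat_ind_triv (H : Subgroup (ZMod q)ˣ) {χ : DirichletCharacter ℂ q} (hχ : ∀ v ∈ H, χ (v : ZMod q) = 1) :
    hat (ind H) χ = ((Nat.card H : ℝ) : ℂ) := by
  classical
  rw [hat]
  have h1 : ∀ u : (ZMod q)ˣ, ind H u * χ ((u : ZMod q)⁻¹) = if u ∈ H then 1 else 0 := by
    intro u
    rw [ind]
    split_ifs with hu
    · rw [ZMod.inv_coe_unit, hχ _ (H.inv_mem hu), one_mul]
    · rw [zero_mul]
  rw [Finset.sum_congr rfl fun u _ => h1 u, Finset.sum_boole, Nat.card_eq_fintype_card, Fintype.card_subtype]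
  push_cast
  rfl

open Classical in
/-- **Windows for the primes in a subgroup.** -/
theorem sub_window (H : Subgroup (ZMod q)ˣ) {χ : DirichletCharacter ℂ q} (hχ : ∀ v ∈ H, χ (v : ZMod q) = 1)
    {ρ : ℂ} (h1 : ρ ≠ 1) (h0 : DirichletCharacter.LFunction χ ρ = 0) {θ δ : ℝ} (hc : θ < ρ.re) (hd : 0 < δ)
    (hd1 : δ < 1) :
    ∀ᶠ X : ℝ in atTop, ∃ y ∈ Icc (X ^ (1 - δ)) X, y ^ θ < ‖cE (ind H) y‖ := by
  have hcard : 0 < Nat.card H := Nat.card_pos
  refine class_window (ind H) h1 (pos_def (ind H)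
    (w := fun χ => if ∀ v ∈ H, χ (v : ZMod q) = 1 then (Nat.card H : ℝ) else 0) ?_ ?_ (χ := χ) ?_ h1 h0) hc hd hd1
  · intro χ
    beta_reduce
    split_ifs <;> positivity
  · intro χ
    beta_reduce
    split_ifs with h
    · exact hat_ind_triv H h
    · push Not at h
      obtain ⟨v, hv, hv2⟩ := h
      rw [hat_ind_nontriv H hv hv2, Complex.ofReal_zero]
  · beta_reduce
    rw [if_pos hχ]
    exact_mod_cast hcard

end Pool.Agent.Q32.Ov
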