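import Pool.Agent.Q32.Ov.Chi

set_option autoImplicit false

/-! # Completing exponential sums -/

open Filter Topology Set MeasureTheory Complex

namespace Pool.Agent.Q32.Ov

/-- `e(x) = exp(2 π i x)` -/
noncomputable def e (x : ℝ) : ℂ := cexp (2 * Real.pi * I * x)

theorem e_add (x y : ℝ) : e (x + y) = e x * e y := by
  rw [e, e, e, ← Complex.exp_add]
  congr 1
  push_cast
  ring

theorem e_norm (x : ℝ) : ‖e x‖ = 1 := by
  rw [e, show (2 * Real.pi * I * x : ℂ) = ((2 * Real.pi * x : ℝ) : ℂ) * I by push_cast; ring]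
  exact Complex.norm_exp_ofReal_mul_I _

theorem e_int (n : ℤ) : e n = 1 := by
  rw [e, show (2 * Real.pi * I * ((n : ℝ) : ℂ) : ℂ) = n * (2 * Real.pi * I) by push_cast; ring]
  exact Complex.exp_int_mul_two_pi_mul_I n

theorem e_nat_mul (n : ℕ) (x : ℝ) : e (n * x) = e x ^ n := by
  rw [e, e, ← Complex.exp_nat_mul]
  congr 1
  push_cast
  ring

theorem e_zero : e 0 = 1 := by simp [e]

theorem e_ne_one {x : ℝ} (h0 : 0 < |x|) (h1 : |x| < 1) : e x ≠ 1 := by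
  rw [e, Ne, Complex.exp_eq_one_iff]
  rintro ⟨n, hn⟩
  have h2 : (2 * Real.pi * I : ℂ) ≠ 0 := by
    simp [Real.pi_ne_zero]
  have h3 : (x : ℂ) = n := by
    have h4 : (2 * Real.pi * I : ℂ) * x = (2 * Real.pi * I : ℂ) * n := by
      rw [hn]; ring
    exact mul_left_cancel₀ h2 h4
  have h5 : x = n := by exact_mod_cast h3
  rw [h5] at h0 h1
  have h6 : (0 : ℤ) < |n| := by exact_mod_cast h0
  have h7 : |n| < (1 : ℤ) := by exact_mod_cast h1
  omega

/-- orthogonality -/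
theorem orth {R : ℕ} (hR : 1 ≤ R) {k : ℤ} (hk : |k| < R) :
    ∑ h ∈ Finset.range R, e (h * (k / R)) = if k = 0 then (R : ℂ) else 0 := by
  have hR0 : (0 : ℝ) < R := by exact_mod_cast hR
  split_ifs with h
  · subst h
    simp [e_zero]
  · simp_rw [e_nat_mul]
    have h1 : e (k / R) ≠ 1 := by
      refine e_ne_one (abs_pos.2 (div_ne_zero (by exact_mod_cast h) hR0.ne')) ?_
      rw [abs_div, abs_of_pos hR0, div_lt_one hR0]
      exact_mod_cast hk
    rw [geom_sum_eq h1, ← e_nat_mul, mul_div_cancel₀ _ hR0.ne', e_int, sub_self, zero_div]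

theorem sum_shift (f : ℕ → ℂ) (y : ℕ) : ∑ m ∈ Finset.Icc 1 y, f m = ∑ m ∈ Finset.range y, f (m + 1) := by
  induction y with
  | zero => simp
  | succ n ih => rw [Finset.sum_Icc_succ_top (by omega), ih, Finset.sum_range_succ]

theorem dist_one {t : ℝ} (ht0 : 0 < t) (ht1 : t < 1) : 4 * (t * (1 - t)) ≤ ‖e (-t) - 1‖ := by
  have h1 : ‖e (-t) - 1‖ = 2 * Real.sin (Real.pi * t) := by
    rw [e, show (2 * Real.pi * I * ((-t : ℝ) : ℂ) : ℂ) = I * ((-(2 * Real.pi * t) : ℝ) : ℂ) by push_cast; ring,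
      Complex.norm_exp_I_mul_ofReal_sub_one]
    rw [show -(2 * Real.pi * t) / 2 = -(Real.pi * t) by ring, Real.sin_neg, Real.norm_eq_abs, mul_neg, abs_neg,
      abs_of_nonneg]
    have := Real.sin_nonneg_of_nonneg_of_le_pi (x := Real.pi * t) (by positivity)
      (by nlinarith [Real.pi_pos])
    linarith
  rw [h1]
  have hpi := Real.pi_pos
  rcases le_total t (1 / 2) with h | h
  · have h2 := Real.mul_le_sin (x := Real.pi * t) (by positivity) (by nlinarith)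
    have h3 : 2 / Real.pi * (Real.pi * t) = 2 * t := by field_simp
    rw [h3] at h2
    nlinarith
  · have h2 := Real.mul_le_sin (x := Real.pi * (1 - t)) (mul_nonneg hpi.le (by linarith)) (by nlinarith)
    have h3 : 2 / Real.pi * (Real.pi * (1 - t)) = 2 * (1 - t) := by field_simp
    rw [h3, show Real.pi * (1 - t) = Real.pi - Real.pi * t by ring, Real.sin_pi_sub] at h2
    nlinarith

/-- geometric sums -/
theorem geom_bd {R h : ℕ} (h1 : 1 ≤ h) (h2 : h < R) (y : ℕ) :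
    ‖∑ m ∈ Finset.Icc 1 y, e (-(m * (h / R : ℝ)))‖ ≤ R / 2 * (1 / h + 1 / (R - h)) := by
  have hh0 : (0 : ℝ) < h := by exact_mod_cast h1
  have hR0 : (0 : ℝ) < R := by exact_mod_cast (h1.trans h2.le)
  have hhR : (h : ℝ) < R := by exact_mod_cast h2
  obtain ⟨t, ht⟩ : ∃ t : ℝ, t = h / R := ⟨_, rfl⟩
  have ht0 : 0 < t := by rw [ht]; positivity
  have ht1 : t < 1 := by rw [ht, div_lt_one hR0]; exact hhR
  have hr : (R : ℝ) / 2 * (1 / h + 1 / (R - h)) = 2 / (4 * (t * (1 - t))) := by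
    have h3 : (R : ℝ) - h ≠ 0 := by linarith
    rw [ht]
    have h4 : (1 : ℝ) - h / R = (R - h) / R := by field_simp
    rw [h4]
    field_simp
    ring
  rw [hr, ← ht]
  have hsum : ∑ m ∈ Finset.Icc 1 y, e (-(m * t)) = e (-t) * ∑ m ∈ Finset.range y, e (-t) ^ m := by
    rw [sum_shift (fun m => e (-(m * t))), Finset.mul_sum]
    refine Finset.sum_congr rfl fun m _ => ?_
    rw [← e_nat_mul, ← e_add]
    congr 1
    push_cast
    ring
  have hne : e (-t) ≠ 1 := e_ne_one (by rw [abs_neg, abs_of_pos ht0]; exact ht0) (by rw [abs_neg, abs_of_pos ht0]; exact ht1)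
  rw [hsum, norm_mul, e_norm, one_mul, geom_sum_eq hne, norm_div]
  have h5 := dist_one ht0 ht1
  have h6 : 0 < 4 * (t * (1 - t)) := by
    have : 0 < 1 - t := by linarith
    positivity
  refine div_le_div₀ (by norm_num) ?_ h6 h5
  refine (norm_sub_le _ _).trans ?_
  rw [norm_pow, e_norm, norm_one, one_pow]
  norm_num

/-- the mean of the geometric sums -/
theorem mean_bd {R : ℕ} (hR : 1 ≤ R) {y : ℕ} (hy : y ≤ R) :
    ∑ h ∈ Finset.range R, ‖∑ m ∈ Finset.Icc 1 y, e (-(m * (h / R : ℝ)))‖ ≤ R * (2 + Real.log R) := by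
  have hR0 : (0 : ℝ) < R := by exact_mod_cast hR
  obtain ⟨r, rfl⟩ : ∃ r, R = r + 1 := ⟨R - 1, by omega⟩
  rw [Finset.sum_range_succ']
  have h1 : ‖∑ m ∈ Finset.Icc 1 y, e (-(m * (((0 : ℕ) : ℝ) / ((r + 1 : ℕ) : ℝ))))‖ ≤ ((r + 1 : ℕ) : ℝ) := by
    refine (norm_sum_le _ _).trans ?_
    simp_rw [e_norm]
    rw [Finset.sum_const, Nat.card_Icc, nsmul_eq_mul, mul_one, Nat.add_sub_cancel]
    exact_mod_cast hy
  have h2 : ∑ k ∈ Finset.range r, ‖∑ m ∈ Finset.Icc 1 y, e (-(m * (((k + 1 : ℕ) : ℝ) / ((r + 1 : ℕ) : ℝ))))‖ ≤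
      ((r + 1 : ℕ) : ℝ) * (1 + Real.log ((r + 1 : ℕ) : ℝ)) := by
    have h3 : ∀ k ∈ Finset.range r, ‖∑ m ∈ Finset.Icc 1 y, e (-(m * (((k + 1 : ℕ) : ℝ) / ((r + 1 : ℕ) : ℝ))))‖ ≤
        ((r + 1 : ℕ) : ℝ) / 2 * (1 / ((k + 1 : ℕ) : ℝ) + 1 / (((r - 1 - k + 1 : ℕ) : ℕ) : ℝ)) := by
      intro k hk
      have hk' := Finset.mem_range.1 hk
      have h4 := geom_bd (R := r + 1) (h := k + 1) (by omega) (by omega) y
      have h5 : (((r - 1 - k + 1 : ℕ) : ℕ) : ℝ) = ((r + 1 : ℕ) : ℝ) - ((k + 1 : ℕ) : ℝ) := by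
        rw [show r - 1 - k + 1 = r + 1 - (k + 1) by omega, Nat.cast_sub (by omega)]
      rw [h5]
      exact h4
    refine (Finset.sum_le_sum h3).trans ?_
    rw [← Finset.mul_sum, Finset.sum_add_distrib, Finset.sum_range_reflect (fun k => 1 / (((k + 1 : ℕ) : ℕ) : ℝ)) r]
    have h6 : ∑ k ∈ Finset.range r, 1 / (((k + 1 : ℕ) : ℕ) : ℝ) ≤ 1 + Real.log ((r + 1 : ℕ) : ℝ) := by
      have h7 : ∑ k ∈ Finset.range r, 1 / (((k + 1 : ℕ) : ℕ) : ℝ) = (harmonic r : ℝ) := by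
        rw [harmonic]
        push_cast
        exact Finset.sum_congr rfl fun k _ => by rw [one_div]
      rw [h7]
      refine (harmonic_le_one_add_log r).trans ?_
      rcases Nat.eq_zero_or_pos r with rfl | hr
      · simp
      · have : Real.log (r : ℝ) ≤ Real.log ((r + 1 : ℕ) : ℝ) :=
          Real.log_le_log (by exact_mod_cast hr) (by push_cast; linarith)
        linarith
    have h8 : 0 ≤ ((r + 1 : ℕ) : ℝ) / 2 := by positivity
    calc ((r + 1 : ℕ) : ℝ) / 2 * (∑ k ∈ Finset.range r, 1 / (((k + 1 : ℕ) : ℕ) : ℝ) +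
          ∑ k ∈ Finset.range r, 1 / (((k + 1 : ℕ) : ℕ) : ℝ))
        ≤ ((r + 1 : ℕ) : ℝ) / 2 * ((1 + Real.log ((r + 1 : ℕ) : ℝ)) + (1 + Real.log ((r + 1 : ℕ) : ℝ))) :=
          mul_le_mul_of_nonneg_left (add_le_add h6 h6) h8
      _ = _ := by ring
  calc _ ≤ ((r + 1 : ℕ) : ℝ) * (1 + Real.log ((r + 1 : ℕ) : ℝ)) + ((r + 1 : ℕ) : ℝ) := add_le_add h2 h1
    _ = _ := by ring

/-- **Completing.** A partial sum of an exponential sum in terms of the complete sum. -/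
theorem complete (a : ℕ → ℂ) {R y : ℕ} (hR : 1 ≤ R) (hy : y ≤ R) {S : ℝ}
    (hS : ∀ x : ℝ, ‖∑ n ∈ Finset.Icc 1 R, a n * e (n * x)‖ ≤ S) (x : ℝ) :
    ‖∑ n ∈ Finset.Icc 1 y, a n * e (n * x)‖ ≤ (2 + Real.log R) * S := by
  have hR0 : (0 : ℝ) < R := by exact_mod_cast hR
  have hRc : (R : ℂ) ≠ 0 := by exact_mod_cast hR0.ne'
  have h1 : ∑ n ∈ Finset.Icc 1 y, a n * e (n * x) = (1 / (R : ℂ)) * ∑ h ∈ Finset.range R,
      (∑ m ∈ Finset.Icc 1 y, e (-(m * (h / R : ℝ)))) * ∑ n ∈ Finset.Icc 1 R, a n * e (n * (x + h / R)) := by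
    have h2 : ∀ h ∈ Finset.range R, (∑ m ∈ Finset.Icc 1 y, e (-(m * (h / R : ℝ)))) *
        ∑ n ∈ Finset.Icc 1 R, a n * e (n * (x + h / R)) =
        ∑ m ∈ Finset.Icc 1 y, ∑ n ∈ Finset.Icc 1 R, a n * e (n * x) * e (h * ((((n : ℤ) - (m : ℤ) : ℤ) : ℝ) / R)) := by
      intro h _
      rw [Finset.sum_mul]
      refine Finset.sum_congr rfl fun m _ => ?_
      rw [Finset.mul_sum]
      refine Finset.sum_congr rfl fun n _ => ?_
      rw [mul_left_comm, mul_assoc, ← e_add, ← e_add]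
      congr 2
      push_cast
      ring
    rw [Finset.sum_congr rfl h2, Finset.sum_comm]
    have h3 : ∀ m ∈ Finset.Icc 1 y, ∑ h ∈ Finset.range R, ∑ n ∈ Finset.Icc 1 R, a n * e (n * x) *
        e (h * ((((n : ℤ) - (m : ℤ) : ℤ) : ℝ) / R)) = (R : ℂ) * (a m * e (m * x)) := by
      intro m hm
      have hm' := Finset.mem_Icc.1 hm
      rw [Finset.sum_comm]
      have h4 : ∀ n ∈ Finset.Icc 1 R, ∑ h ∈ Finset.range R, a n * e (n * x) *
          e (h * ((((n : ℤ) - (m : ℤ) : ℤ) : ℝ) / R)) = if m = n then (R : ℂ) * (a n * e (n * x)) else 0 := by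
        intro n hn
        have hn' := Finset.mem_Icc.1 hn
        rw [← Finset.mul_sum, orth hR (by rw [abs_lt]; constructor <;> omega)]
        by_cases hnm : m = n
        · rw [if_pos hnm, if_pos (by omega), mul_comm]
        · rw [if_neg hnm, if_neg (by omega), mul_zero]
      rw [Finset.sum_congr rfl h4, Finset.sum_ite_eq, if_pos (Finset.mem_Icc.2 ⟨hm'.1, hm'.2.trans hy⟩)]
    rw [Finset.sum_congr rfl h3, ← Finset.mul_sum, ← mul_assoc, one_div, inv_mul_cancel₀ hRc, one_mul]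
  have hS0 : 0 ≤ S := (norm_nonneg _).trans (hS 0)
  rw [h1, norm_mul, norm_div, norm_one, Complex.norm_natCast]
  have h5 : ‖∑ h ∈ Finset.range R, (∑ m ∈ Finset.Icc 1 y, e (-(m * (h / R : ℝ)))) *
      ∑ n ∈ Finset.Icc 1 R, a n * e (n * (x + h / R))‖ ≤ (R * (2 + Real.log R)) * S := by
    refine (norm_sum_le _ _).trans ?_
    calc ∑ h ∈ Finset.range R, ‖(∑ m ∈ Finset.Icc 1 y, e (-(m * (h / R : ℝ)))) *
          ∑ n ∈ Finset.Icc 1 R, a n * e (n * (x + h / R))‖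
        ≤ ∑ h ∈ Finset.range R, ‖∑ m ∈ Finset.Icc 1 y, e (-(m * (h / R : ℝ)))‖ * S := by
          refine Finset.sum_le_sum fun h _ => ?_
          rw [norm_mul]
          exact mul_le_mul_of_nonneg_left (hS _) (norm_nonneg _)
      _ = (∑ h ∈ Finset.range R, ‖∑ m ∈ Finset.Icc 1 y, e (-(m * (h / R : ℝ)))‖) * S := by
          rw [Finset.sum_mul]
      _ ≤ _ := mul_le_mul_of_nonneg_right (mean_bd hR hy) hS0
  calc 1 / (R : ℝ) * ‖∑ h ∈ Finset.range R, (∑ m ∈ Finset.Icc 1 y, e (-(m * (h / R : ℝ)))) *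
        ∑ n ∈ Finset.Icc 1 R, a n * e (n * (x + h / R))‖
      ≤ 1 / (R : ℝ) * ((R * (2 + Real.log R)) * S) := mul_le_mul_of_nonneg_left h5 (by positivity)
    _ = _ := by field_simp

end Pool.Agent.Q32.Ov
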