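import Mathlib

set_option autoImplicit false

/-! # Laplace transforms and windows

If the Laplace transform of `A` times `D` is `N`, near a point `ρ` with `D ρ = 0 ≠ N ρ`, then `A` is
large on every window `[(1 - λ) Y, (1 + λ) Y]`. -/

open Filter Topology Set MeasureTheory Complex

namespace Pool.Agent.Q32.Ov

/-- the finite Laplace transform is entire -/
theorem lt_diff {A : ℝ → ℂ} (hA : Measurable A) {a b C : ℝ} (hC : ∀ u ∈ Ioc a b, ‖A u‖ ≤ C) :
    Differentiable ℂ fun s : ℂ => ∫ u in Ioc a b, A u * cexp (-(s * u)) := by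
  intro s
  have hm : ∀ s : ℂ, AEStronglyMeasurable (fun u : ℝ => A u * cexp (-(s * u))) (volume.restrict (Ioc a b)) := by
    intro s
    refine (hA.mul ?_).aestronglyMeasurable
    fun_prop
  set M : ℝ := max |a| |b| with hM
  have hM0 : 0 ≤ M := (abs_nonneg a).trans (le_max_left _ _)
  have hu : ∀ u ∈ Ioc a b, |u| ≤ M := fun u hu => by
    rw [abs_le]
    constructor
    · have := neg_abs_le a
      have := le_max_left |a| |b|
      linarith [hu.1]
    · have := le_abs_self b
      have := le_max_right |a| |b|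
      linarith [hu.2]
  have hexp : ∀ (z : ℂ) (u : ℝ), u ∈ Ioc a b → z ∈ Metric.ball s 1 → ‖cexp (-(z * u))‖ ≤ Real.exp ((‖s‖ + 1) * M) := by
    intro z u h1 h2
    rw [Complex.norm_exp]
    refine Real.exp_le_exp.2 ?_
    have h3 : ‖z‖ ≤ ‖s‖ + 1 := by
      have := norm_add_le (z - s) s
      rw [sub_add_cancel] at this
      rw [mem_ball_iff_norm] at h2
      linarith
    calc (-(z * u)).re ≤ ‖-(z * u)‖ := Complex.re_le_norm _
      _ = ‖z‖ * |u| := by rw [norm_neg, norm_mul, Complex.norm_real, Real.norm_eq_abs]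
      _ ≤ (‖s‖ + 1) * M := mul_le_mul h3 (hu u h1) (abs_nonneg _) (by positivity)
  have key := hasDerivAt_integral_of_dominated_loc_of_deriv_le (μ := volume.restrict (Ioc a b)) (𝕜 := ℂ)
    (F := fun s u => A u * cexp (-(s * u))) (F' := fun s u => A u * (cexp (-(s * u)) * (-(u : ℂ)))) (x₀ := s)
    (s := Metric.ball s 1) (bound := fun _ => C * (Real.exp ((‖s‖ + 1) * M) * M))
    (Metric.ball_mem_nhds s one_pos) (Eventually.of_forall fun z => hm z) ?_ ?_ ?_ ?_ ?_
  · exact key.2.differentiableAt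
  · refine Integrable.of_bound (hm s) (C * Real.exp ((‖s‖ + 1) * M)) ?_
    refine (ae_restrict_mem measurableSet_Ioc).mono fun u h1 => ?_
    rw [norm_mul]
    exact mul_le_mul (hC u h1) (hexp s u h1 (Metric.mem_ball_self one_pos)) (norm_nonneg _)
      ((norm_nonneg _).trans (hC u h1))
  · refine (hA.mul ?_).aestronglyMeasurable
    fun_prop
  · refine (ae_restrict_mem measurableSet_Ioc).mono fun u h1 z hz => ?_
    rw [norm_mul, norm_mul, norm_neg, Complex.norm_real, Real.norm_eq_abs]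
    have h0 : 0 ≤ C := (norm_nonneg _).trans (hC u h1)
    exact mul_le_mul (hC u h1) (mul_le_mul (hexp z u h1 hz) (hu u h1) (abs_nonneg _) (Real.exp_pos _).le)
      (by positivity) h0
  · exact integrable_const _
  · refine Eventually.of_forall fun u z _ => ?_
    have h1 : HasDerivAt (fun z : ℂ => -(z * u)) (-(u : ℂ)) z := by
      have h := ((hasDerivAt_id z).mul_const (u : ℂ)).neg
      rw [one_mul] at h
      exact h
    exact (h1.cexp).const_mul _

variable {A : ℝ → ℂ} {B g : ℝ}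

theorem term_norm (s : ℂ) (u : ℝ) : ‖A u * cexp (-(s * u))‖ = ‖A u‖ * Real.exp (-(s.re * u)) := by
  rw [norm_mul, Complex.norm_exp]
  congr 2
  simp

/-- bound for the finite transform -/
theorem lt_le (hB0 : 0 ≤ B) (hB : ∀ u, 0 ≤ u → ‖A u‖ ≤ B * Real.exp (g * u)) {T m Y : ℝ} (hT : 0 ≤ T)
    (hTY : T ≤ Y) {s : ℂ} (hm0 : 0 ≤ m) (hm : g - s.re ≤ m) :
    ‖∫ u in Ioc 0 T, A u * cexp (-(s * u))‖ ≤ B * Y * Real.exp (m * T) := by
  have h1 : ‖∫ u in Ioc 0 T, A u * cexp (-(s * u))‖ ≤ (B * Real.exp (m * T)) * volume.real (Ioc 0 T) := by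
    refine norm_setIntegral_le_of_norm_le_const (by simp) fun u hu => ?_
    rw [term_norm]
    calc ‖A u‖ * Real.exp (-(s.re * u)) ≤ B * Real.exp (g * u) * Real.exp (-(s.re * u)) :=
          mul_le_mul_of_nonneg_right (hB u hu.1.le) (Real.exp_pos _).le
      _ = B * Real.exp ((g - s.re) * u) := by
          rw [mul_assoc, ← Real.exp_add]
          congr 2
          ring
      _ ≤ B * Real.exp (m * T) := by
          refine mul_le_mul_of_nonneg_left (Real.exp_le_exp.2 ?_) hB0
          calc (g - s.re) * u ≤ m * u := mul_le_mul_of_nonneg_right hm hu.1.le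
            _ ≤ m * T := mul_le_mul_of_nonneg_left hu.2 hm0
  rw [Real.volume_real_Ioc_of_le hT, sub_zero] at h1
  refine h1.trans ?_
  have h2 : 0 ≤ B * Real.exp (m * T) := by positivity
  calc B * Real.exp (m * T) * T ≤ B * Real.exp (m * T) * Y := mul_le_mul_of_nonneg_left hTY h2
    _ = _ := by ring

/-- bound for the window -/
theorem win_le {c T₁ T₂ C : ℝ} (hA : Measurable A) (hC : ∀ u ∈ Ioc T₁ T₂, ‖A u‖ ≤ C) {s : ℂ} (hs : c ≤ s.re) :
    ‖∫ u in Ioc T₁ T₂, A u * cexp (-(s * u))‖ ≤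
      Real.exp (-((s.re - c) * T₁)) * ∫ u in Ioc T₁ T₂, ‖A u‖ * Real.exp (-(c * u)) := by
  have hi : ∀ t : ℝ, IntegrableOn (fun u => ‖A u‖ * Real.exp (-(t * u))) (Ioc T₁ T₂) := by
    intro t
    obtain ⟨M, hM⟩ := (isCompact_Icc (a := T₁) (b := T₂)).exists_bound_of_continuousOn
      (f := fun u : ℝ => Real.exp (-(t * u))) (by fun_prop)
    refine Integrable.of_bound ?_ (C * M) ?_
    · refine (hA.norm.mul ?_).aestronglyMeasurable
      fun_prop
    · refine (ae_restrict_mem measurableSet_Ioc).mono fun u hu => ?_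
      rw [norm_mul, norm_norm]
      exact mul_le_mul (hC u hu) (hM u (Ioc_subset_Icc_self hu)) (norm_nonneg _)
        ((norm_nonneg _).trans (hC u hu))
  refine (norm_integral_le_integral_norm _).trans ?_
  rw [← integral_const_mul]
  refine setIntegral_mono_on ?_ ((hi c).const_mul _) measurableSet_Ioc fun u hu => ?_
  · refine (hi s.re).congr_fun (fun u _ => ?_) measurableSet_Ioc
    exact (term_norm s u).symm
  · rw [term_norm, mul_left_comm, ← Real.exp_add]
    refine mul_le_mul_of_nonneg_left (Real.exp_le_exp.2 ?_) (norm_nonneg _)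
    have := mul_le_mul_of_nonneg_left hu.1.le (show 0 ≤ s.re - c by linarith)
    linarith

/-- bound for the tail -/
theorem tail_le (hB : ∀ u, 0 ≤ u → ‖A u‖ ≤ B * Real.exp (g * u)) {T : ℝ} (hT : 0 ≤ T)
    {s : ℂ} (hs : g < s.re) :
    ‖∫ u in Ioi T, A u * cexp (-(s * u))‖ ≤ B * Real.exp (-((s.re - g) * T)) / (s.re - g) := by
  have hd : 0 < s.re - g := by linarith
  have h1 : IntegrableOn (fun u : ℝ => B * Real.exp (-(s.re - g) * u)) (Ioi T) :=
    (integrableOn_exp_mul_Ioi (by linarith) T).const_mul B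
  have h2 : ∫ u in Ioi T, B * Real.exp (-(s.re - g) * u) = B * Real.exp (-((s.re - g) * T)) / (s.re - g) := by
    rw [integral_const_mul, integral_exp_mul_Ioi (by linarith) T]
    field_simp
  rw [← h2]
  refine norm_integral_le_of_norm_le h1 ?_
  refine (ae_restrict_mem measurableSet_Ioi).mono fun u hu => ?_
  rw [term_norm]
  calc ‖A u‖ * Real.exp (-(s.re * u)) ≤ B * Real.exp (g * u) * Real.exp (-(s.re * u)) :=
        mul_le_mul_of_nonneg_right (hB u (hT.trans (le_of_lt hu))) (Real.exp_pos _).le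
    _ = B * Real.exp (-(s.re - g) * u) := by
        rw [mul_assoc, ← Real.exp_add]
        congr 2
        ring

/-- integrability -/
theorem lt_int (hA : Measurable A) (hB : ∀ u, 0 ≤ u → ‖A u‖ ≤ B * Real.exp (g * u)) {s : ℂ} (hs : g < s.re) :
    IntegrableOn (fun u : ℝ => A u * cexp (-(s * u))) (Ioi 0) := by
  have h1 : IntegrableOn (fun u : ℝ => B * Real.exp (-(s.re - g) * u)) (Ioi 0) :=
    (integrableOn_exp_mul_Ioi (by linarith) 0).const_mul B
  refine h1.mono' ?_ ?_
  · refine (hA.mul ?_).aestronglyMeasurable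
    fun_prop
  · refine (ae_restrict_mem measurableSet_Ioi).mono fun u hu => ?_
    rw [term_norm]
    calc ‖A u‖ * Real.exp (-(s.re * u)) ≤ B * Real.exp (g * u) * Real.exp (-(s.re * u)) :=
          mul_le_mul_of_nonneg_right (hB u (le_of_lt hu)) (Real.exp_pos _).le
      _ = B * Real.exp (-(s.re - g) * u) := by
          rw [mul_assoc, ← Real.exp_add]
          congr 2
          ring

/-- splitting -/
theorem lt_split (hA : Measurable A) (hB : ∀ u, 0 ≤ u → ‖A u‖ ≤ B * Real.exp (g * u)) {s : ℂ} (hs : g < s.re)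
    {T₁ T₂ : ℝ} (h1 : 0 ≤ T₁) (h2 : T₁ ≤ T₂) :
    ∫ u in Ioi (0 : ℝ), A u * cexp (-(s * u)) = (∫ u in Ioc 0 T₁, A u * cexp (-(s * u))) +
      ((∫ u in Ioc T₁ T₂, A u * cexp (-(s * u))) + ∫ u in Ioi T₂, A u * cexp (-(s * u))) := by
  have hi := lt_int hA hB hs
  rw [← Ioc_union_Ioi_eq_Ioi h1, setIntegral_union (Ioc_disjoint_Ioi le_rfl) measurableSet_Ioi
    (hi.mono_set Ioc_subset_Ioi_self) (hi.mono_set (Ioi_subset_Ioi h1)),
    ← Ioc_union_Ioi_eq_Ioi h2, setIntegral_union (Ioc_disjoint_Ioi le_rfl) measurableSet_Ioi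
    (hi.mono_set (fun u hu => lt_of_le_of_lt h1 hu.1)) (hi.mono_set (Ioi_subset_Ioi (h1.trans h2)))]

end Pool.Agent.Q32.Ov
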