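import Pool.Agent.Q32.Ov.Main
import Mathlib.NumberTheory.LSeries.SumCoeff

set_option autoImplicit false

/-! # Windows for Mellin transforms -/

open Filter Topology Set MeasureTheory Complex

namespace Pool.Agent.Q32.Ov

/-- Laplace and Mellin -/
theorem laplace_mellin (f : ℝ → ℂ) (s : ℂ) :
    ∫ u in Ioi (0 : ℝ), f (Real.exp u) * cexp (-(s * u)) = ∫ y in Ioi (1 : ℝ), f y * (y : ℂ) ^ (-(s + 1)) := by
  have h1 : Ioi (1 : ℝ) = Real.exp '' Ioi 0 := by
    ext y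
    constructor
    · intro hy
      have hy0 : (0 : ℝ) < y := lt_trans one_pos hy
      exact ⟨Real.log y, Real.log_pos hy, Real.exp_log hy0⟩
    · rintro ⟨u, hu, rfl⟩
      exact Real.one_lt_exp_iff.2 hu
  rw [h1, integral_image_eq_integral_abs_deriv_smul measurableSet_Ioi
    (fun x _ => (Real.hasDerivAt_exp x).hasDerivWithinAt) Real.exp_injective.injOn]
  refine setIntegral_congr_fun measurableSet_Ioi fun u _ => ?_
  beta_reduce
  rw [abs_of_pos (Real.exp_pos u), Complex.real_smul]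
  have h2 : ((Real.exp u : ℝ) : ℂ) ^ (-(s + 1)) = cexp (u * (-(s + 1))) := by
    rw [Complex.cpow_def_of_ne_zero (by exact_mod_cast (Real.exp_pos u).ne'), ← Complex.ofReal_log (Real.exp_pos u).le,
      Real.log_exp]
  rw [h2, Complex.ofReal_exp, mul_left_comm, ← Complex.exp_add]
  congr 2
  ring

variable {A : ℝ → ℂ} {B g : ℝ}

/-- a large value in every window -/
theorem window_pt (hA : Measurable A) (hB : ∀ u, 0 ≤ u → ‖A u‖ ≤ B * Real.exp (g * u)) {ρ : ℂ}
    (h : ∀ R : ℝ, ∃ D N : ℂ → ℂ, DifferentiableOn ℂ D (Metric.ball ρ R) ∧ DifferentiableOn ℂ N (Metric.ball ρ R) ∧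
      D ρ = 0 ∧ N ρ ≠ 0 ∧ ∀ s ∈ Metric.ball ρ R, g < s.re →
        D s * ∫ u in Ioi (0 : ℝ), A u * cexp (-(s * u)) = N s)
    {θ lam : ℝ} (hc : θ < ρ.re) (hl0 : 0 < lam) (hl1 : lam < 1) :
    ∀ᶠ Y : ℝ in atTop, ∃ u ∈ Ioc ((1 - lam) * Y) ((1 + lam) * Y), Real.exp (θ * u) < ‖A u‖ := by
  have hw := window hA hB h (c := (θ + ρ.re) / 2) (by linarith) hl0 hl1
  set c : ℝ := (θ + ρ.re) / 2 with hcdef
  have hcθ : 0 < (c - θ) * (1 - lam) := mul_pos (by rw [hcdef]; linarith) (by linarith)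
  have hlim : Tendsto (fun Y : ℝ => 2 * lam * (Y * Real.exp (-(((c - θ) * (1 - lam)) * Y)))) atTop (𝓝 0) := by
    have h1 := Real.tendsto_pow_mul_exp_neg_atTop_nhds_zero 1
    have h2 : Tendsto (fun Y : ℝ => ((c - θ) * (1 - lam)) * Y) atTop atTop :=
      tendsto_id.const_mul_atTop hcθ
    have h3 := (h1.comp h2).const_mul (2 * lam / ((c - θ) * (1 - lam)))
    rw [mul_zero] at h3
    refine h3.congr fun Y => ?_
    simp only [Function.comp, pow_one]
    have hne : (c - θ) * (1 - lam) ≠ 0 := hcθ.ne'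
    generalize (c - θ) * (1 - lam) = k at hne
    field_simp
  filter_upwards [hw, hlim.eventually (gt_mem_nhds one_pos), eventually_ge_atTop 0] with Y hY1 hY2 hY0
  by_contra hcon
  push Not at hcon
  have hlY : 0 ≤ lam * Y := by positivity
  have hle : (1 - lam) * Y ≤ (1 + lam) * Y := by
    linarith [show (1 - lam) * Y = Y - lam * Y by ring, show (1 + lam) * Y = Y + lam * Y by ring]
  have hT0 : 0 ≤ (1 - lam) * Y := mul_nonneg (by linarith) hY0
  have hbd : ∀ u ∈ Ioc ((1 - lam) * Y) ((1 + lam) * Y),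
      ‖(‖A u‖ * Real.exp (-(c * u)) : ℝ)‖ ≤ Real.exp (-(((c - θ) * (1 - lam)) * Y)) := by
    intro u hu
    rw [Real.norm_eq_abs, abs_of_nonneg (by positivity)]
    calc ‖A u‖ * Real.exp (-(c * u)) ≤ Real.exp (θ * u) * Real.exp (-(c * u)) :=
          mul_le_mul_of_nonneg_right (hcon u hu) (Real.exp_nonneg _)
      _ = Real.exp (-((c - θ) * u)) := by rw [← Real.exp_add]; congr 1; ring
      _ ≤ Real.exp (-(((c - θ) * (1 - lam)) * Y)) := by
          rw [Real.exp_le_exp, neg_le_neg_iff, mul_assoc]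
          exact mul_le_mul_of_nonneg_left hu.1.le (by rw [hcdef]; linarith)
  have h3 := norm_setIntegral_le_of_norm_le_const (μ := volume) (s := Ioc ((1 - lam) * Y) ((1 + lam) * Y))
    (by simp) hbd
  rw [Real.volume_real_Ioc_of_le hle] at h3
  have h4 := (le_abs_self _).trans ((Real.norm_eq_abs _).symm.le.trans h3)
  have h5 : Real.exp (-(((c - θ) * (1 - lam)) * Y)) * ((1 + lam) * Y - (1 - lam) * Y) =
      2 * lam * (Y * Real.exp (-(((c - θ) * (1 - lam)) * Y))) := by ring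
  rw [h5] at h4
  linarith

/-- **Windows for Mellin transforms.** -/
theorem mellin_window {f : ℝ → ℂ} (hf : Measurable f) (hB : ∀ y, 1 ≤ y → ‖f y‖ ≤ B * y ^ g) {ρ : ℂ}
    (h : ∀ R : ℝ, ∃ D N : ℂ → ℂ, DifferentiableOn ℂ D (Metric.ball ρ R) ∧ DifferentiableOn ℂ N (Metric.ball ρ R) ∧
      D ρ = 0 ∧ N ρ ≠ 0 ∧ ∀ s ∈ Metric.ball ρ R, g < s.re →
        D s * ∫ y in Ioi (1 : ℝ), f y * (y : ℂ) ^ (-(s + 1)) = N s)
    {θ δ : ℝ} (hc : θ < ρ.re) (hd : 0 < δ) :
    ∀ᶠ X : ℝ in atTop, ∃ y ∈ Icc (X ^ (1 - δ)) X, y ^ θ < ‖f y‖ := by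
  obtain ⟨lam, hlam⟩ : ∃ l : ℝ, l = min (δ / 2) (1 / 2) := ⟨_, rfl⟩
  have hl0 : 0 < lam := by rw [hlam]; exact lt_min (by linarith) (by norm_num)
  have hl1 : lam < 1 := by rw [hlam]; exact (min_le_right _ _).trans_lt (by norm_num)
  have hl2 : lam ≤ δ / 2 := by rw [hlam]; exact min_le_left _ _
  have hw := window_pt (A := fun u => f (Real.exp u)) (hf.comp Real.measurable_exp) (B := B) (g := g)
    (fun u hu => by
      have h1 := hB (Real.exp u) (Real.one_le_exp hu)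
      rwa [← Real.exp_mul, mul_comm u g] at h1) (ρ := ρ)
    (fun R => by
      obtain ⟨D, N, h1, h2, h3, h4, h5⟩ := h R
      refine ⟨D, N, h1, h2, h3, h4, fun s hs hgs => ?_⟩
      rw [laplace_mellin]
      exact h5 s hs hgs) hc hl0 hl1
  have ht : Tendsto (fun X : ℝ => Real.log X / (1 + lam)) atTop atTop :=
    Real.tendsto_log_atTop.atTop_div_const (by linarith)
  filter_upwards [ht.eventually hw, eventually_ge_atTop 1] with X hX hX1
  obtain ⟨u, ⟨hu1, hu2⟩, hu3⟩ := hX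
  have hX0 : 0 < X := by linarith
  have hlog : 0 ≤ Real.log X := Real.log_nonneg hX1
  refine ⟨Real.exp u, ⟨?_, ?_⟩, ?_⟩
  · rw [Real.rpow_def_of_pos hX0, Real.exp_le_exp]
    refine le_trans ?_ hu1.le
    have h1 : Real.log X * (1 - δ) ≤ (1 - lam) * (Real.log X / (1 + lam)) := by
      rw [← mul_div_assoc, le_div_iff₀ (by linarith)]
      have h2 : (1 - δ) * (1 + lam) ≤ 1 - lam := by nlinarith
      calc Real.log X * (1 - δ) * (1 + lam) = Real.log X * ((1 - δ) * (1 + lam)) := by ring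
        _ ≤ Real.log X * (1 - lam) := mul_le_mul_of_nonneg_left h2 hlog
        _ = _ := by ring
    exact h1
  · have h1 : (1 + lam) * (Real.log X / (1 + lam)) = Real.log X := by
      field_simp
    rw [h1] at hu2
    calc Real.exp u ≤ Real.exp (Real.log X) := Real.exp_le_exp.2 hu2
      _ = X := Real.exp_log hX0
  · rw [← Real.exp_mul, mul_comm u θ]
    exact hu3

/-- The Mellin transform of a summatory function. -/
theorem mellin_sum {a : ℕ → ℂ} {r : ℝ} (hr : 0 ≤ r) {s : ℂ} (hs : r < s.re) (hS : LSeriesSummable a s)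
    (hO : (fun n : ℕ => ∑ k ∈ Finset.Icc 1 n, a k) =O[atTop] fun n => (n : ℝ) ^ r) :
    s * ∫ y in Ioi (1 : ℝ), (∑ k ∈ Finset.Icc 1 ⌊y⌋₊, a k) * (y : ℂ) ^ (-(s + 1)) = LSeries a s :=
  (LSeries_eq_mul_integral a hr hs hS hO).symm

theorem measurable_sum (a : ℕ → ℂ) : Measurable fun y : ℝ => ∑ k ∈ Finset.Icc 1 ⌊y⌋₊, a k :=
  (measurable_from_nat (f := fun n : ℕ => ∑ k ∈ Finset.Icc 1 n, a k)).comp Nat.measurable_floor

end Pool.Agent.Q32.Ov
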