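import Pool.Agent.Q32.Ov.Dir

set_option autoImplicit false

/-! # Windows from zeros of logarithmic derivatives -/

open Filter Topology Set MeasureTheory Complex

namespace Pool.Agent.Q32.Ov

theorem factor_one (F : ℂ → ℂ) (hF : Differentiable ℂ F) (hne : ∃ v, F v ≠ 0) (a : ℂ) :
    ∃ (n : ℕ) (G : ℂ → ℂ), Differentiable ℂ G ∧ G a ≠ 0 ∧ ∀ v, F v = (v - a) ^ n * G v := by
  have hFa : AnalyticAt ℂ F a := hF.analyticAt a
  have hnz : ¬ ∀ᶠ z in 𝓝 a, F z = 0 := by
    intro h
    obtain ⟨v, hv⟩ := hne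
    have hFan : AnalyticOnNhd ℂ F univ := fun z _ => hF.analyticAt z
    have := hFan.eqOn_zero_of_preconnected_of_eventuallyEq_zero isPreconnected_univ (mem_univ a) h
    exact hv (this (mem_univ v))
  obtain ⟨n, g, hg, hga, hgF⟩ := (hFa.exists_eventuallyEq_pow_smul_nonzero_iff).2 hnz
  refine ⟨n, fun v => if v = a then g a else F v / (v - a) ^ n, ?_, ?_, ?_⟩
  · intro v
    by_cases hv : v = a
    · subst hv
      have h1 : (fun w => if w = v then g v else F w / (w - v) ^ n) =ᶠ[𝓝 v] g := by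
        filter_upwards [hgF] with w hw
        by_cases hwv : w = v
        · rw [if_pos hwv, hwv]
        · rw [if_neg hwv, hw, smul_eq_mul, mul_div_cancel_left₀]
          exact pow_ne_zero _ (sub_ne_zero.2 hwv)
      exact hg.differentiableAt.congr_of_eventuallyEq h1
    · have h1 : (fun w => if w = a then g a else F w / (w - a) ^ n) =ᶠ[𝓝 v]
          fun w => F w / (w - a) ^ n := by
        filter_upwards [isOpen_ne.mem_nhds hv] with w hw
        exact if_neg hw
      have h2 : DifferentiableAt ℂ (fun w => F w / (w - a) ^ n) v :=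
        (hF v).div ((differentiableAt_id.sub_const a).pow n) (pow_ne_zero _ (sub_ne_zero.2 hv))
      exact h2.congr_of_eventuallyEq h1
  · show (if a = a then g a else F a / (a - a) ^ n) ≠ 0
    rw [if_pos rfl]
    exact hga
  · intro v
    by_cases hv : v = a
    · subst hv
      simp only [if_true]
      have := hgF.self_of_nhds
      rw [this, smul_eq_mul]
    · simp only [if_neg hv]
      rw [mul_div_cancel₀]
      exact pow_ne_zero _ (sub_ne_zero.2 hv)

/-- factorization with the analytic order -/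
theorem factor_ord (F : ℂ → ℂ) (hF : Differentiable ℂ F) (hne : ∃ v, F v ≠ 0) (a : ℂ) :
    ∃ G : ℂ → ℂ, Differentiable ℂ G ∧ G a ≠ 0 ∧ ∀ v, F v = (v - a) ^ (analyticOrderNatAt F a) * G v := by
  obtain ⟨n, G, hG, hGa, hFG⟩ := factor_one F hF hne a
  refine ⟨G, hG, hGa, ?_⟩
  have h1 : analyticOrderAt F a = n := by
    rw [(hF.analyticAt a).analyticOrderAt_eq_natCast]
    exact ⟨G, hG.analyticAt a, hGa, Eventually.of_forall fun v => by rw [smul_eq_mul]; exact hFG v⟩
  have h2 : analyticOrderNatAt F a = n := by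
    rw [analyticOrderNatAt, h1]
    rfl
  rw [h2]
  exact hFG

theorem deriv_factor {F G : ℂ → ℂ} {a : ℂ} {m : ℕ} (hG : Differentiable ℂ G)
    (hFG : ∀ v, F v = (v - a) ^ m * G v) (s : ℂ) :
    (s - a) * deriv F s * G s = (m * G s + (s - a) * deriv G s) * F s := by
  have h1 : F = fun v => (v - a) ^ m * G v := funext hFG
  have h2 : HasDerivAt F ((m * (s - a) ^ (m - 1)) * G s + (s - a) ^ m * deriv G s) s := by
    rw [h1]
    have h3 := (((hasDerivAt_id s).sub_const a).pow m).mul (hG s).hasDerivAt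
    simp only [id, one_mul, mul_one] at h3
    exact h3
  rw [h2.deriv, hFG s]
  rcases Nat.eq_zero_or_pos m with rfl | hm
  · simp only [Nat.cast_zero, pow_zero]
    ring
  · obtain ⟨k, rfl⟩ : ∃ k, m = k + 1 := ⟨m - 1, by omega⟩
    rw [Nat.add_sub_cancel, pow_succ]
    ring

/-- **Windows for logarithmic derivatives.** -/
theorem log_window {ι : Type*} [Fintype ι] [DecidableEq ι] {F : ι → ℂ → ℂ} {c : ι → ℂ} {P : ℂ → ℂ} {B g : ℝ}
    (hF : ∀ i, Differentiable ℂ (F i)) (hP : Differentiable ℂ P) (hF0 : ∀ i, ∀ s : ℂ, g < s.re → F i s ≠ 0)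
    {f : ℝ → ℂ} (hf : Measurable f) (hB : ∀ y, 1 ≤ y → ‖f y‖ ≤ B * y ^ g)
    (hid : ∀ s : ℂ, g < s.re → s * ∫ y in Ioi (1 : ℝ), f y * (y : ℂ) ^ (-(s + 1)) =
      P s - ∑ i, c i * (deriv (F i) s / F i s))
    {ρ : ℂ} (hρ : ∑ i, c i * (analyticOrderNatAt (F i) ρ) ≠ 0) {θ δ : ℝ} (hc : θ < ρ.re) (hd : 0 < δ) :
    ∀ᶠ X : ℝ in atTop, ∃ y ∈ Icc (X ^ (1 - δ)) X, y ^ θ < ‖f y‖ := by
  have hne : ∀ i, ∃ v, F i v ≠ 0 := fun i => ⟨((g + 1 : ℝ) : ℂ), hF0 i _ (by
    rw [Complex.ofReal_re]; linarith)⟩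
  choose G hG hGρ hFG using fun i => factor_ord (F i) (hF i) (hne i) ρ
  refine mellin_window hf hB (ρ := ρ) (fun R => ?_) hc hd
  refine ⟨fun s => s * (s - ρ) * ∏ i, G i s, fun s => P s * ((s - ρ) * ∏ i, G i s) -
    ∑ i, c i * (analyticOrderNatAt (F i) ρ * G i s + (s - ρ) * deriv (G i) s) * ∏ j ∈ Finset.univ.erase i, G j s,
    ?_, ?_, ?_, ?_, ?_⟩
  · have : Differentiable ℂ fun s => s * (s - ρ) * ∏ i, G i s := by fun_prop
    exact this.differentiableOn
  · have hG' : ∀ i, Differentiable ℂ (deriv (G i)) := fun i =>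
      ((hG i).contDiff (n := 2)).differentiable_deriv_two
    have : Differentiable ℂ fun s => P s * ((s - ρ) * ∏ i, G i s) -
        ∑ i, c i * (analyticOrderNatAt (F i) ρ * G i s + (s - ρ) * deriv (G i) s) *
          ∏ j ∈ Finset.univ.erase i, G j s := by
      refine (by fun_prop : Differentiable ℂ fun s => P s * ((s - ρ) * ∏ i, G i s)).sub ?_
      refine Differentiable.fun_sum fun i _ => ?_
      have := hG' i
      fun_prop
    exact this.differentiableOn
  · simp
  · have h1 : P ρ * ((ρ - ρ) * ∏ i, G i ρ) -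
        ∑ i, c i * (analyticOrderNatAt (F i) ρ * G i ρ + (ρ - ρ) * deriv (G i) ρ) *
          ∏ j ∈ Finset.univ.erase i, G j ρ = -((∑ i, c i * (analyticOrderNatAt (F i) ρ)) * ∏ j, G j ρ) := by
      rw [sub_self, zero_mul, mul_zero, zero_sub, Finset.sum_mul]
      congr 1
      refine Finset.sum_congr rfl fun i _ => ?_
      rw [← Finset.mul_prod_erase Finset.univ (fun j => G j ρ) (Finset.mem_univ i)]
      ring
    beta_reduce
    rw [h1]
    exact neg_ne_zero.2 (mul_ne_zero hρ (Finset.prod_ne_zero_iff.2 fun j _ => hGρ j))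
  · intro s _ hgs
    have h1 := hid s hgs
    have h2 : s * (s - ρ) * (∏ i, G i s) * ∫ y in Ioi (1 : ℝ), f y * (y : ℂ) ^ (-(s + 1)) =
        (s - ρ) * (∏ i, G i s) * (s * ∫ y in Ioi (1 : ℝ), f y * (y : ℂ) ^ (-(s + 1))) := by ring
    rw [h2, h1, mul_sub]
    congr 1
    · ring
    · rw [Finset.mul_sum]
      refine Finset.sum_congr rfl fun i _ => ?_
      have h3 := deriv_factor (hG i) (hFG i) s
      have h4 := hF0 i s hgs
      rw [← Finset.mul_prod_erase Finset.univ (fun j => G j s) (Finset.mem_univ i)]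
      have h5 : (s - ρ) * (deriv (F i) s / F i s) * G i s =
          analyticOrderNatAt (F i) ρ * G i s + (s - ρ) * deriv (G i) s := by
        rw [mul_div_assoc', div_mul_eq_mul_div, div_eq_iff h4]
        exact h3
      rw [← h5]
      ring

end Pool.Agent.Q32.Ov
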