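import Mathlib

set_option autoImplicit false

/-! # Parameters and elementary estimates -/

open Filter Topology

namespace Pool.Agent.Q32.Ov

theorem params {d p lam : ℝ} (hd0 : 0 ≤ d) (hp0 : 0 < p) (hl0 : 0 < lam) (hl1 : lam < 1) :
    ∃ a R K η V φ : ℝ, 0 < a ∧ 0 < R ∧ 0 < K ∧ 0 < η ∧ 0 < V ∧ 0 < φ ∧ φ ≤ 1 ∧ d + 1 ≤ R ∧
      a * R + η * (K ^ 2 + R ^ 2) + (d + K) + 1 ≤ η * V ^ 2 ∧
      (d + K) * (1 - lam) - a * K + η * K ^ 2 ≤ -1 ∧ -(a * K) + η * K ^ 2 ≤ -1 ∧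
      a * R + η * R ^ 2 - (R + p) * (1 - lam) ≤ -φ ∧ a * R + η * R ^ 2 - (R - d) * (1 + lam) ≤ -1 := by
  have hl2 : 0 < 1 - lam := by linarith
  set R : ℝ := 2 * (d + 1) * (1 + lam) / lam with hR
  have hR0 : 0 < R := by rw [hR]; positivity
  have hRl : lam * R = 2 * (d + 1) * (1 + lam) := by rw [hR]; field_simp
  have hRd : d + 1 ≤ R := by
    rw [hR, le_div_iff₀ hl0]
    nlinarith
  set τ : ℝ := min lam (p * (1 - lam) / (4 * R)) with hτ
  have hτ0 : 0 < τ := lt_min hl0 (by positivity)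
  have hτ1 : τ ≤ lam := min_le_left _ _
  have hτ2 : τ * R ≤ p * (1 - lam) / 4 := by
    have : τ ≤ p * (1 - lam) / (4 * R) := min_le_right _ _
    rw [le_div_iff₀ (by positivity)] at this
    linarith
  set K : ℝ := 2 * (d + 1) / τ with hK
  have hK0 : 0 < K := by rw [hK]; positivity
  have hKτ : τ * K = 2 * (d + 1) := by rw [hK]; field_simp
  set η : ℝ := min (1 / R ^ 2) (min (p * (1 - lam) / (4 * R ^ 2)) (τ / (2 * K))) with hη
  have hη0 : 0 < η := lt_min (by positivity) (lt_min (by positivity) (by positivity))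
  have hη1 : η * R ^ 2 ≤ 1 := by
    have : η ≤ 1 / R ^ 2 := min_le_left _ _
    rwa [le_div_iff₀ (by positivity)] at this
  have hη2 : η * R ^ 2 ≤ p * (1 - lam) / 4 := by
    have : η ≤ p * (1 - lam) / (4 * R ^ 2) := (min_le_right _ _).trans (min_le_left _ _)
    rw [le_div_iff₀ (by positivity)] at this
    linarith
  have hη3 : η * K ^ 2 ≤ d + 1 := by
    have h1 : η ≤ τ / (2 * K) := (min_le_right _ _).trans (min_le_right _ _)
    rw [le_div_iff₀ (by positivity)] at h1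
    have h2 : η * (2 * K) * K ≤ τ * K := mul_le_mul_of_nonneg_right h1 hK0.le
    rw [hKτ] at h2
    linarith [show η * (2 * K) * K = 2 * (η * K ^ 2) by ring]
  set a : ℝ := 1 - lam + τ with ha
  have ha0 : 0 < a := by rw [ha]; linarith
  set W : ℝ := a * R + η * (K ^ 2 + R ^ 2) + (d + K) + 1 with hW
  have hW0 : 0 < W := by rw [hW]; positivity
  set V : ℝ := 1 + W / η with hV
  have hV0 : 0 < V := by rw [hV]; positivity
  have hVW : W ≤ η * V ^ 2 := by
    have e : η * V ^ 2 = η + 2 * W + W ^ 2 / η := by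
      rw [hV]
      field_simp
      ring
    rw [e]
    have : 0 ≤ W ^ 2 / η := by positivity
    linarith
  have hpl : 0 < p * (1 - lam) := by positivity
  have hdl : 0 ≤ d * lam := by positivity
  refine ⟨a, R, K, η, V, min 1 (p * (1 - lam) / 2), ha0, hR0, hK0, hη0, hV0, lt_min one_pos (by positivity),
    min_le_left _ _, hRd, hVW, ?_, ?_, ?_, ?_⟩
  · have e : (d + K) * (1 - lam) - a * K + η * K ^ 2 = d - d * lam - τ * K + η * K ^ 2 := by rw [ha]; ring
    rw [e]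
    linarith
  · have e : -(a * K) + η * K ^ 2 = -((1 - lam) * K) - τ * K + η * K ^ 2 := by rw [ha]; ring
    rw [e]
    have : 0 < (1 - lam) * K := by positivity
    linarith
  · have e : a * R + η * R ^ 2 - (R + p) * (1 - lam) = τ * R + η * R ^ 2 - p * (1 - lam) := by rw [ha]; ring
    rw [e]
    have : min 1 (p * (1 - lam) / 2) ≤ p * (1 - lam) / 2 := min_le_right _ _
    linarith
  · have e : a * R + η * R ^ 2 - (R - d) * (1 + lam) = τ * R - 2 * (lam * R) + η * R ^ 2 + d + d * lam := by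
      rw [ha]; ring
    rw [e]
    have e4 : τ * R ≤ lam * R := mul_le_mul_of_nonneg_right hτ1 hR0.le
    have e5 : 2 * (d + 1) * (1 + lam) = 2 * d + 2 + 2 * (d * lam) + 2 * lam := by ring
    linarith

theorem hlim {a b φ : ℝ} (hφ0 : 0 < φ) :
    Tendsto (fun Y : ℝ => a * (Y * Real.exp (-(φ * Y))) + b * Real.exp (-(φ * Y))) atTop (𝓝 0) := by
  have h1 : Tendsto (fun Y : ℝ => Y * Real.exp (-(φ * Y))) atTop (𝓝 0) := by
    have := Real.tendsto_pow_mul_exp_neg_atTop_nhds_zero 1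
    have h2 := (this.comp (tendsto_id.const_mul_atTop hφ0)).const_mul (1 / φ)
    rw [mul_zero] at h2
    refine h2.congr fun Y => ?_
    simp only [Function.comp, pow_one, id]
    field_simp
  have h2 : Tendsto (fun Y : ℝ => Real.exp (-(φ * Y))) atTop (𝓝 0) :=
    Real.tendsto_exp_neg_atTop_nhds_zero.comp (tendsto_id.const_mul_atTop hφ0)
  simpa using (h1.const_mul a).add (h2.const_mul b)

/-- the estimate on the left and horizontal sides -/
theorem side_one {M₁ M₂ B Y T t m q φ x y : ℝ} (h1 : 0 ≤ M₁) (h2 : 0 ≤ M₂) (hB : 0 ≤ B) (hY : 0 < Y)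
    (hT : T = t * Y) (hy0 : 0 ≤ y)
    (hx : x ≤ M₁ * (B * Y * Real.exp (m * T)) + M₂) (hy : y ≤ Real.exp (Y * q)) (hmq : m * t + q ≤ -1)
    (hq : q ≤ -1) (hφ : φ ≤ 1) :
    x * y ≤ (M₁ * B) * (Y * Real.exp (-(φ * Y))) + (M₂ + M₁ + M₁ * B) * Real.exp (-(φ * Y)) := by
  have e1 : Real.exp (m * T) * Real.exp (Y * q) ≤ Real.exp (-(φ * Y)) := by
    rw [← Real.exp_add]
    refine Real.exp_le_exp.2 ?_
    have e : m * T + Y * q = Y * (m * t + q) := by rw [hT]; ring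
    rw [e]
    have h3 : Y * (m * t + q) ≤ Y * (-1) := mul_le_mul_of_nonneg_left hmq hY.le
    have h4 : φ * Y ≤ 1 * Y := mul_le_mul_of_nonneg_right hφ hY.le
    linarith
  have e2 : Real.exp (Y * q) ≤ Real.exp (-(φ * Y)) := by
    refine Real.exp_le_exp.2 ?_
    have h3 : Y * q ≤ Y * (-1) := mul_le_mul_of_nonneg_left hq hY.le
    have h4 : φ * Y ≤ 1 * Y := mul_le_mul_of_nonneg_right hφ hY.le
    linarith
  set e := Real.exp (-(φ * Y)) with he
  have he0 : 0 < e := Real.exp_pos _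
  have h5 : 0 ≤ M₁ * e := by positivity
  have h6 : 0 ≤ M₁ * B * e := by positivity
  calc x * y ≤ (M₁ * (B * Y * Real.exp (m * T)) + M₂) * y := mul_le_mul_of_nonneg_right hx hy0
    _ ≤ (M₁ * (B * Y * Real.exp (m * T)) + M₂) * Real.exp (Y * q) :=
        mul_le_mul_of_nonneg_left hy (by positivity)
    _ = (M₁ * B * Y) * (Real.exp (m * T) * Real.exp (Y * q)) + M₂ * Real.exp (Y * q) := by ring
    _ ≤ (M₁ * B * Y) * e + M₂ * e := by gcongr
    _ ≤ (M₁ * B) * (Y * e) + (M₂ + M₁ + M₁ * B) * e := by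
        have : (M₂ + M₁ + M₁ * B) * e = M₂ * e + M₁ * e + M₁ * B * e := by ring
        rw [this]
        have : (M₁ * B) * (Y * e) = (M₁ * B * Y) * e := by ring
        rw [this]
        linarith

/-- the estimate on the right side -/
theorem side_two {M₁ M₂ B Y lam a R η d p φ x y : ℝ} (h1 : 0 ≤ M₁) (h2 : 0 ≤ M₂) (hB : 0 ≤ B) (hY : 0 < Y)
    (hy0 : 0 ≤ y)
    (hx : x ≤ M₁ * (Real.exp (-((R + p) * ((1 - lam) * Y))) + B * Real.exp (-((R - d) * ((1 + lam) * Y)))))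
    (hy : y ≤ Real.exp (Y * (a * R + η * R ^ 2)))
    (h3 : a * R + η * R ^ 2 - (R + p) * (1 - lam) ≤ -φ) (h4 : a * R + η * R ^ 2 - (R - d) * (1 + lam) ≤ -1)
    (hφ : φ ≤ 1) :
    x * y ≤ (M₁ * B) * (Y * Real.exp (-(φ * Y))) + (M₂ + M₁ + M₁ * B) * Real.exp (-(φ * Y)) := by
  have e1 : Real.exp (-((R + p) * ((1 - lam) * Y))) * Real.exp (Y * (a * R + η * R ^ 2)) ≤ Real.exp (-(φ * Y)) := by
    rw [← Real.exp_add]
    refine Real.exp_le_exp.2 ?_
    have e : -((R + p) * ((1 - lam) * Y)) + Y * (a * R + η * R ^ 2) =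
        Y * (a * R + η * R ^ 2 - (R + p) * (1 - lam)) := by ring
    rw [e]
    have h5 := mul_le_mul_of_nonneg_left h3 hY.le
    linarith
  have e2 : Real.exp (-((R - d) * ((1 + lam) * Y))) * Real.exp (Y * (a * R + η * R ^ 2)) ≤ Real.exp (-(φ * Y)) := by
    rw [← Real.exp_add]
    refine Real.exp_le_exp.2 ?_
    have e : -((R - d) * ((1 + lam) * Y)) + Y * (a * R + η * R ^ 2) =
        Y * (a * R + η * R ^ 2 - (R - d) * (1 + lam)) := by ring
    rw [e]
    have h5 := mul_le_mul_of_nonneg_left h4 hY.le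
    have h6 : φ * Y ≤ 1 * Y := mul_le_mul_of_nonneg_right hφ hY.le
    linarith
  set e := Real.exp (-(φ * Y)) with he
  have he0 : 0 < e := Real.exp_pos _
  set E1 := Real.exp (-((R + p) * ((1 - lam) * Y)))
  set E2 := Real.exp (-((R - d) * ((1 + lam) * Y)))
  set E3 := Real.exp (Y * (a * R + η * R ^ 2))
  have h7 : 0 ≤ E1 := Real.exp_nonneg _
  have h8 : 0 ≤ E2 := Real.exp_nonneg _
  calc x * y ≤ (M₁ * (E1 + B * E2)) * y := mul_le_mul_of_nonneg_right hx hy0
    _ ≤ (M₁ * (E1 + B * E2)) * E3 := mul_le_mul_of_nonneg_left hy (by positivity)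
    _ = M₁ * (E1 * E3) + (M₁ * B) * (E2 * E3) := by ring
    _ ≤ M₁ * e + (M₁ * B) * e := by gcongr
    _ ≤ (M₁ * B) * (Y * e) + (M₂ + M₁ + M₁ * B) * e := by
        have e3 : (M₂ + M₁ + M₁ * B) * e = M₂ * e + M₁ * e + M₁ * B * e := by ring
        rw [e3]
        have h9 : 0 ≤ M₂ * e := by positivity
        have h10 : 0 ≤ (M₁ * B) * (Y * e) := by positivity
        linarith

/-- the weight on the horizontal sides -/
theorem weight_hor {a R K η V d x : ℝ} (ha : 0 < a) (hη : 0 < η) (hK : 0 < K) (hR : 0 < R)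
    (h1 : -K ≤ x) (h2 : x ≤ R) (h3 : a * R + η * (K ^ 2 + R ^ 2) + (d + K) + 1 ≤ η * V ^ 2) :
    a * x + η * (x ^ 2 - V ^ 2) ≤ -(d + K) - 1 := by
  have h5 : a * x ≤ a * R := mul_le_mul_of_nonneg_left h2 ha.le
  have h6 : x ^ 2 ≤ K ^ 2 + R ^ 2 := by
    rcases le_total 0 x with h7 | h7
    · have : x ^ 2 ≤ R ^ 2 := pow_le_pow_left₀ h7 h2 2
      have := sq_nonneg K
      linarith
    · have : (-x) ^ 2 ≤ K ^ 2 := pow_le_pow_left₀ (by linarith) (by linarith) 2
      rw [neg_sq] at this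
      have := sq_nonneg R
      linarith
  have h7 := mul_le_mul_of_nonneg_left h6 hη.le
  have e : a * x + η * (x ^ 2 - V ^ 2) = a * x + η * x ^ 2 - η * V ^ 2 := by ring
  rw [e]
  linarith

end Pool.Agent.Q32.Ov
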