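import Pool.Agent.Q32.Ov.Core
import Pool.Agent.Q32.Ov.Par

set_option autoImplicit false

/-! # Laplace transforms and windows: the main estimate -/

open Filter Topology Set MeasureTheory Complex

namespace Pool.Agent.Q32.Ov

variable {A : ℝ → ℂ} {B g : ℝ}

theorem bd_on (hB0 : 0 ≤ B) (hB : ∀ u, 0 ≤ u → ‖A u‖ ≤ B * Real.exp (g * u)) (a b : ℝ) (ha : 0 ≤ a) :
    ∃ C : ℝ, ∀ u ∈ Ioc a b, ‖A u‖ ≤ C := by
  refine ⟨B * Real.exp (|g| * b), fun u hu => (hB u (ha.trans hu.1.le)).trans ?_⟩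
  refine mul_le_mul_of_nonneg_left (Real.exp_le_exp.2 ?_) hB0
  have hu0 : 0 ≤ u := ha.trans hu.1.le
  calc g * u ≤ |g| * u := mul_le_mul_of_nonneg_right (le_abs_self g) hu0
    _ ≤ |g| * b := mul_le_mul_of_nonneg_left hu.2 (abs_nonneg _)

theorem weight_norm (ρ : ℂ) (Y a η : ℝ) (s : ℂ) : ‖cexp (Y * (a * (s - ρ) + η * (s - ρ) ^ 2))‖ =
    Real.exp (Y * (a * (s.re - ρ.re) + η * ((s.re - ρ.re) ^ 2 - (s.im - ρ.im) ^ 2))) := by
  rw [Complex.norm_exp]
  congr 1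
  rw [Complex.re_ofReal_mul, Complex.add_re, Complex.re_ofReal_mul, Complex.re_ofReal_mul]
  congr 3
  rw [sq, Complex.mul_re, Complex.sub_re, Complex.sub_im]
  ring

/-- the right side -/
theorem right_side (hA : Measurable A) (hB0 : 0 ≤ B) (hB : ∀ u, 0 ≤ u → ‖A u‖ ≤ B * Real.exp (g * u))
    {D N : ℂ → ℂ} {s : ℂ} {M₁ c T₁ T₂ R d p : ℝ} (hM : ‖D s‖ ≤ M₁)
    (hid : D s * ∫ u in Ioi (0 : ℝ), A u * cexp (-(s * u)) = N s) (hT₁ : 0 ≤ T₁) (hT₁₂ : T₁ ≤ T₂)
    (e1 : s.re - c = R + p) (e2 : s.re - g = R - d) (hRp : 0 ≤ R + p) (hRd : 1 ≤ R - d)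
    (hcon : ∫ u in Ioc T₁ T₂, ‖A u‖ * Real.exp (-(c * u)) ≤ 1) :
    ‖D s * (∫ u in Ioc 0 T₁, A u * cexp (-(s * u))) - N s‖ ≤
      M₁ * (Real.exp (-((R + p) * T₁)) + B * Real.exp (-((R - d) * T₂))) := by
  have hsg : g < s.re := by linarith
  rw [lt_split hA hB hsg hT₁ hT₁₂] at hid
  have h5 : D s * (∫ u in Ioc 0 T₁, A u * cexp (-(s * u))) - N s =
      -(D s * ((∫ u in Ioc T₁ T₂, A u * cexp (-(s * u))) + ∫ u in Ioi T₂, A u * cexp (-(s * u)))) := by
    rw [← hid]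
    ring
  obtain ⟨C₂, hC₂⟩ := bd_on hB0 hB T₁ T₂ hT₁
  have h6 := win_le (c := c) hA hC₂ (s := s) (by linarith)
  have h7 := tail_le hB (hT₁.trans hT₁₂) hsg
  rw [e1] at h6
  rw [e2] at h7
  rw [h5, norm_neg, norm_mul]
  refine mul_le_mul hM ((norm_add_le _ _).trans (add_le_add ?_ ?_)) (norm_nonneg _)
    ((norm_nonneg _).trans hM)
  · refine h6.trans ?_
    calc _ ≤ Real.exp (-((R + p) * T₁)) * 1 := mul_le_mul_of_nonneg_left hcon (Real.exp_nonneg _)
      _ = _ := mul_one _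
  · refine h7.trans (div_le_self ?_ hRd)
    positivity

/-- **Main estimate.** -/
theorem window_aux (hA : Measurable A) (hB0 : 0 ≤ B) (hB : ∀ u, 0 ≤ u → ‖A u‖ ≤ B * Real.exp (g * u)) {ρ : ℂ}
    (h : ∀ R : ℝ, ∃ D N : ℂ → ℂ, DifferentiableOn ℂ D (Metric.ball ρ R) ∧ DifferentiableOn ℂ N (Metric.ball ρ R) ∧
      D ρ = 0 ∧ N ρ ≠ 0 ∧ ∀ s ∈ Metric.ball ρ R, g < s.re →
        D s * ∫ u in Ioi (0 : ℝ), A u * cexp (-(s * u)) = N s)
    {c lam : ℝ} (hc : c < ρ.re) (hl0 : 0 < lam) (hl1 : lam < 1) (hg : ρ.re ≤ g) :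
    ∀ᶠ Y : ℝ in atTop, 1 ≤ ∫ u in Ioc ((1 - lam) * Y) ((1 + lam) * Y), ‖A u‖ * Real.exp (-(c * u)) := by
  obtain ⟨b, hb⟩ : ∃ b, b = ρ.re := ⟨_, rfl⟩
  obtain ⟨d, hd⟩ : ∃ d, d = g - b := ⟨_, rfl⟩
  obtain ⟨p, hp⟩ : ∃ p, p = b - c := ⟨_, rfl⟩
  have hd0 : 0 ≤ d := by rw [hd, hb]; linarith
  have hp0 : 0 < p := by rw [hp, hb]; linarith
  obtain ⟨a, R, K, η, V, φ, ha0, hR0, hK0, hη0, hV0, hφ0, hφ1, hRd, q1, q2, q3, q4, q5⟩ :=
    params hd0 hp0 hl0 hl1
  obtain ⟨D, N, hDd, hNd, hD0, hN0, hid⟩ := h (K + R + V + 1)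
  set U : Set ℂ := Ioo (b - K) (b + R) ×ℂ Ioo (ρ.im - V) (ρ.im + V) with hU
  have hclU : closure U = Icc (b - K) (b + R) ×ℂ Icc (ρ.im - V) (ρ.im + V) := by
    rw [hU, closure_reProdIm, closure_Ioo (by linarith), closure_Ioo (by linarith)]
  have hfrU : frontier U = Icc (b - K) (b + R) ×ℂ {ρ.im - V, ρ.im + V} ∪
      {b - K, b + R} ×ℂ Icc (ρ.im - V) (ρ.im + V) := by
    rw [hU, frontier_reProdIm, closure_Ioo (by linarith), closure_Ioo (by linarith),
      frontier_Ioo (by linarith), frontier_Ioo (by linarith)]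
  have hball : ∀ s ∈ closure U, s ∈ Metric.ball ρ (K + R + V + 1) := by
    intro s hs
    rw [hclU, mem_reProdIm] at hs
    obtain ⟨⟨h1, h2⟩, ⟨h3, h4⟩⟩ := hs
    rw [mem_ball_iff_norm]
    have h5 := Complex.norm_le_abs_re_add_abs_im (s - ρ)
    have h6 : |(s - ρ).re| ≤ K + R := by
      rw [Complex.sub_re, ← hb, abs_le]
      constructor <;> linarith
    have h7 : |(s - ρ).im| ≤ V := by
      rw [Complex.sub_im, abs_le]
      constructor <;> linarith
    linarith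
  have hcomp : IsCompact (closure U) := by
    rw [hclU]
    exact isCompact_Icc.reProdIm isCompact_Icc
  obtain ⟨M₁, hM₁⟩ := hcomp.exists_bound_of_continuousOn (hDd.continuousOn.mono hball)
  obtain ⟨M₂, hM₂⟩ := hcomp.exists_bound_of_continuousOn (hNd.continuousOn.mono hball)
  have hρU : ρ ∈ U := by
    rw [hU, mem_reProdIm]
    exact ⟨⟨by linarith, by linarith⟩, ⟨by linarith, by linarith⟩⟩
  have hM₁0 : 0 ≤ M₁ := (norm_nonneg _).trans (hM₁ ρ (subset_closure hρU))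
  have hM₂0 : 0 ≤ M₂ := (norm_nonneg _).trans (hM₂ ρ (subset_closure hρU))
  filter_upwards [(hlim (a := M₁ * B) (b := M₂ + M₁ + M₁ * B) hφ0).eventually
    (gt_mem_nhds (norm_pos_iff.2 hN0)), eventually_ge_atTop 1] with Y hY hY1
  by_contra hcon
  rw [not_le] at hcon
  have hY0 : 0 < Y := by linarith
  have hl2 : 0 ≤ 1 - lam := by linarith
  have hT₁0 : 0 ≤ (1 - lam) * Y := mul_nonneg hl2 hY0.le
  have hT₁Y : (1 - lam) * Y ≤ Y := by
    have : 0 ≤ lam * Y := by positivity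
    linarith [show (1 - lam) * Y = Y - lam * Y by ring]
  have hT₁₂ : (1 - lam) * Y ≤ (1 + lam) * Y := by
    have : 0 ≤ lam * Y := by positivity
    linarith [show (1 - lam) * Y = Y - lam * Y by ring, show (1 + lam) * Y = Y + lam * Y by ring]
  obtain ⟨C₁, hC₁⟩ := bd_on hB0 hB 0 ((1 - lam) * Y) le_rfl
  have hEd : DifferentiableOn ℂ (fun s => D s * (∫ u in Ioc 0 ((1 - lam) * Y), A u * cexp (-(s * u))) - N s)
      (closure U) :=
    ((hDd.mono hball).mul (lt_diff hA hC₁).differentiableOn).sub (hNd.mono hball)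
  have hwd : Differentiable ℂ (fun s : ℂ => cexp (Y * (a * (s - ρ) + η * (s - ρ) ^ 2))) := by fun_prop
  have hfd : DiffContOnCl ℂ (fun s => (D s * (∫ u in Ioc 0 ((1 - lam) * Y), A u * cexp (-(s * u))) - N s) *
      cexp (Y * (a * (s - ρ) + η * (s - ρ) ^ 2))) U :=
    (hEd.mul hwd.differentiableOn).diffContOnCl
  have hEl : ∀ s ∈ closure U, ‖D s * (∫ u in Ioc 0 ((1 - lam) * Y), A u * cexp (-(s * u))) - N s‖ ≤
      M₁ * (B * Y * Real.exp ((d + K) * ((1 - lam) * Y))) + M₂ := by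
    intro s hs
    have hs2 := hs
    rw [hclU, mem_reProdIm] at hs2
    refine (norm_sub_le _ _).trans (add_le_add ?_ (hM₂ s hs))
    rw [norm_mul]
    refine mul_le_mul (hM₁ s hs) (lt_le hB0 hB hT₁0 hT₁Y (by positivity) ?_) (norm_nonneg _) hM₁0
    linarith [hs2.1.1]
  have hfront : ∀ s ∈ frontier U, ‖(D s * (∫ u in Ioc 0 ((1 - lam) * Y), A u * cexp (-(s * u))) - N s) *
      cexp (Y * (a * (s - ρ) + η * (s - ρ) ^ 2))‖ ≤
      (M₁ * B) * (Y * Real.exp (-(φ * Y))) + (M₂ + M₁ + M₁ * B) * Real.exp (-(φ * Y)) := by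
    intro s hs
    have hsc : s ∈ closure U := frontier_subset_closure hs
    rw [hfrU] at hs
    rw [norm_mul]
    rcases hs with hs | hs
    · -- the horizontal sides
      rw [mem_reProdIm] at hs
      obtain ⟨⟨h2, h3⟩, h4⟩ := hs
      have hy : (s.im - ρ.im) ^ 2 = V ^ 2 := by
        rcases h4 with h4 | h4
        · rw [h4]; ring
        · rw [mem_singleton_iff] at h4
          rw [h4]; ring
      refine side_one (t := 1 - lam) (q := -(d + K) - 1) hM₁0 hM₂0 hB0 hY0 rfl (norm_nonneg _) (hEl s hsc) ?_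
        ?_ (by linarith) hφ1
      · rw [weight_norm, hy, ← hb]
        refine Real.exp_le_exp.2 (mul_le_mul_of_nonneg_left ?_ hY0.le)
        exact weight_hor ha0 hη0 hK0 hR0 (by linarith) (by linarith) q1
      · have h6 : 0 ≤ (d + K) * lam := by positivity
        linarith [show (d + K) * (1 - lam) = (d + K) - (d + K) * lam by ring]
    · rw [mem_reProdIm] at hs
      obtain ⟨h2, h3⟩ := hs
      have hη2 := mul_nonneg hη0.le (sq_nonneg (s.im - ρ.im))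
      rcases h2 with h2 | h2
      · -- the left side
        refine side_one (t := 1 - lam) (q := -(a * K) + η * K ^ 2) hM₁0 hM₂0 hB0 hY0 rfl (norm_nonneg _)
          (hEl s hsc) ?_ (by linarith) q3 hφ1
        rw [weight_norm, h2, ← hb]
        refine Real.exp_le_exp.2 (mul_le_mul_of_nonneg_left ?_ hY0.le)
        have e1 : a * (b - K - b) + η * ((b - K - b) ^ 2 - (s.im - ρ.im) ^ 2) =
            -(a * K) + η * K ^ 2 - η * (s.im - ρ.im) ^ 2 := by ring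
        rw [e1]
        linarith
      · -- the right side
        rw [mem_singleton_iff] at h2
        refine side_two (lam := lam) (a := a) (R := R) (η := η) (d := d) (p := p) hM₁0 hM₂0 hB0 hY0
          (norm_nonneg _) ?_ ?_ q4 q5 hφ1
        · refine right_side (c := c) hA hB0 hB (hM₁ s hsc) (hid s (hball s hsc) (by linarith)) hT₁0 hT₁₂
            (by linarith) (by linarith) (by linarith) (by linarith) hcon.le
        · rw [weight_norm, h2, ← hb]
          refine Real.exp_le_exp.2 (mul_le_mul_of_nonneg_left ?_ hY0.le)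
          have e1 : a * (b + R - b) + η * ((b + R - b) ^ 2 - (s.im - ρ.im) ^ 2) =
              a * R + η * R ^ 2 - η * (s.im - ρ.im) ^ 2 := by ring
          rw [e1]
          linarith
  have hbound : Bornology.IsBounded U := hcomp.isBounded.subset subset_closure
  have hfin := Complex.norm_le_of_forall_mem_frontier_norm_le hbound hfd hfront (subset_closure hρU)
  have e1 : (D ρ * (∫ u in Ioc 0 ((1 - lam) * Y), A u * cexp (-(ρ * u))) - N ρ) *
      cexp (Y * (a * (ρ - ρ) + η * (ρ - ρ) ^ 2)) = -N ρ := by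
    rw [hD0, sub_self]
    simp
  rw [e1, norm_neg] at hfin
  linarith

/-- **Laplace transforms and windows.** -/
theorem window (hA : Measurable A) (hB : ∀ u, 0 ≤ u → ‖A u‖ ≤ B * Real.exp (g * u)) {ρ : ℂ}
    (h : ∀ R : ℝ, ∃ D N : ℂ → ℂ, DifferentiableOn ℂ D (Metric.ball ρ R) ∧ DifferentiableOn ℂ N (Metric.ball ρ R) ∧
      D ρ = 0 ∧ N ρ ≠ 0 ∧ ∀ s ∈ Metric.ball ρ R, g < s.re →
        D s * ∫ u in Ioi (0 : ℝ), A u * cexp (-(s * u)) = N s)
    {c lam : ℝ} (hc : c < ρ.re) (hl0 : 0 < lam) (hl1 : lam < 1) :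
    ∀ᶠ Y : ℝ in atTop, 1 ≤ ∫ u in Ioc ((1 - lam) * Y) ((1 + lam) * Y), ‖A u‖ * Real.exp (-(c * u)) := by
  have hB0 : 0 ≤ B := by
    have := (norm_nonneg _).trans (hB 0 le_rfl)
    simpa using this
  rcases le_or_gt ρ.re g with hg | hg
  · exact window_aux hA hB0 hB h hc hl0 hl1 hg
  · refine window_aux (g := ρ.re) hA hB0 (fun u hu => (hB u hu).trans ?_) (fun R => ?_) hc hl0 hl1 le_rfl
    · exact mul_le_mul_of_nonneg_left (Real.exp_le_exp.2 (mul_le_mul_of_nonneg_right hg.le hu)) hB0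
    · obtain ⟨D, N, h1, h2, h3, h4, h5⟩ := h R
      exact ⟨D, N, h1, h2, h3, h4, fun s hs hs2 => h5 s hs (hg.trans hs2)⟩

end Pool.Agent.Q32.Ov
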