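import Pool.Agent.Q32.Ov.Cls

set_option autoImplicit false

/-! # Windows for all multiples of a modulus -/

open Filter Topology Set MeasureTheory Complex

namespace Pool.Agent.Q32.Ov

open ArithmeticFunction (vonMangoldt)

/-- prime powers of the primes of a finite set -/
lemma sum_dvd_le (S : Finset ℕ) (hS : ∀ p ∈ S, p.Prime) (N : ℕ) (hN : 1 ≤ N) (A : Finset ℕ)
    (hA : ∀ n ∈ A, 1 ≤ n ∧ n ≤ N) (h : ∀ n ∈ A, vonMangoldt n ≠ 0 → ∃ p ∈ S, p ∣ n) :
    ∑ n ∈ A, vonMangoldt n ≤ S.card * Real.log N := by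
  classical
  have h1 : ∑ n ∈ A, vonMangoldt n ≤
      ∑ m ∈ S.biUnion fun p ↦ Finset.image (p ^ ·) (Finset.Icc 1 (p.log N)), vonMangoldt m := by
    rw [← Finset.sum_filter_ne_zero]
    apply Finset.sum_le_sum_of_subset_of_nonneg
    · intro n hn
      rw [Finset.mem_filter] at hn
      obtain ⟨h1, h4⟩ := hn
      have h5 := ArithmeticFunction.vonMangoldt_ne_zero_iff.1 h4
      obtain ⟨p, k, hp, hk, rfl⟩ := (isPrimePow_nat_iff _).1 h5
      obtain ⟨r, hr, hrp⟩ := h _ h1 h4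
      have hpr : r = p := (Nat.prime_dvd_prime_iff_eq (hS r hr) hp).1 ((hS r hr).dvd_of_dvd_pow hrp)
      rw [Finset.mem_biUnion]
      refine ⟨p, hpr ▸ hr, ?_⟩
      rw [Finset.mem_image]
      exact ⟨k, Finset.mem_Icc.2 ⟨hk, Nat.le_log_of_pow_le hp.one_lt (hA _ h1).2⟩, rfl⟩
    · intro n _ _
      exact ArithmeticFunction.vonMangoldt_nonneg
  have h2 : ∑ m ∈ S.biUnion fun p ↦ Finset.image (p ^ ·) (Finset.Icc 1 (p.log N)),
        vonMangoldt m = ∑ p ∈ S, (p.log N : ℝ) * Real.log p := by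
    rw [Finset.sum_biUnion]
    · apply Finset.sum_congr rfl
      intro p hp
      have hpp := hS p hp
      rw [Finset.sum_image fun a _ b _ hab ↦ Nat.pow_right_injective hpp.two_le hab]
      have : ∀ k ∈ Finset.Icc 1 (p.log N), vonMangoldt (p ^ k) = Real.log p := by
        intro k hk
        rw [Finset.mem_Icc] at hk
        rw [ArithmeticFunction.vonMangoldt_apply_pow (by omega),
          ArithmeticFunction.vonMangoldt_apply_prime hpp]
      rw [Finset.sum_congr rfl this]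
      simp
    · intro p hp r hr hpr
      have hpp := hS p hp
      have hrr := hS r hr
      simp only [Function.onFun]
      rw [Finset.disjoint_left]
      intro a ha hb
      rw [Finset.mem_image] at ha hb
      obtain ⟨k, hk, rfl⟩ := ha
      obtain ⟨j, hj, hjk⟩ := hb
      rw [Finset.mem_Icc] at hk hj
      apply hpr
      have h6 : r ∣ p ^ k := by
        rw [← show r ^ j = p ^ k from hjk]
        exact dvd_pow_self r (by omega)
      exact ((Nat.prime_dvd_prime_iff_eq hrr hpp).1 (hrr.dvd_of_dvd_pow h6)).symm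
  have h3 : ∀ p ∈ S, (p.log N : ℝ) * Real.log p ≤ Real.log N := by
    intro p hp
    have hpp := hS p hp
    rw [← Real.log_pow]
    apply Real.log_le_log
    · have := hpp.pos; positivity
    · exact_mod_cast Nat.pow_log_le_self p (by omega)
  calc _ ≤ _ := h1
    _ = _ := h2
    _ ≤ ∑ p ∈ S, Real.log N := Finset.sum_le_sum h3
    _ = S.card * Real.log N := by rw [Finset.sum_const, nsmul_eq_mul]

lemma sum_ncop (q N : ℕ) (hq : 1 ≤ q) (hN : 1 ≤ N) :
    ∑ n ∈ (Finset.Icc 1 N).filter (fun n => ¬ n.Coprime q), vonMangoldt n ≤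
      q.primeFactors.card * Real.log N := by
  apply sum_dvd_le q.primeFactors (fun p hp => Nat.prime_of_mem_primeFactors hp) N hN
  · intro n hn
    exact Finset.mem_Icc.mp (Finset.mem_filter.mp hn).1
  · intro n hn h4
    have h3 := (Finset.mem_filter.mp hn).2
    have h5 := ArithmeticFunction.vonMangoldt_ne_zero_iff.1 h4
    obtain ⟨p, k, hp, hk, rfl⟩ := (isPrimePow_nat_iff _).1 h5
    have hpq : p ∣ q := by
      by_contra hc
      exact h3 (((Nat.Prime.coprime_iff_not_dvd hp).2 hc).pow_left k)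
    exact ⟨p, Nat.mem_primeFactors.2 ⟨hp, hpq, by omega⟩, dvd_pow_self p (by omega)⟩

lemma omega_le (q : ℕ) (hq : 1 ≤ q) : (q.primeFactors.card : ℝ) ≤ 2 * Real.log q := by
  have h1 : 2 ^ q.primeFactors.card ≤ q := by
    calc 2 ^ q.primeFactors.card = ∏ _p ∈ q.primeFactors, 2 := by rw [Finset.prod_const]
      _ ≤ ∏ p ∈ q.primeFactors, p := Finset.prod_le_prod' (fun p hp =>
          (Nat.prime_of_mem_primeFactors hp).two_le)
      _ ≤ q := Nat.le_of_dvd (by omega) (Nat.prod_primeFactors_dvd q)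
  have h2 : (q.primeFactors.card : ℝ) * Real.log 2 ≤ Real.log q := by
    rw [← Real.log_pow]
    apply Real.log_le_log (by positivity)
    exact_mod_cast h1
  have h3 : (1 : ℝ) / 2 ≤ Real.log 2 := by have := Real.log_two_gt_d9; linarith
  have h4 : (0 : ℝ) ≤ q.primeFactors.card := by positivity
  nlinarith

/-- `ψ(x; q, a)` -/
noncomputable def psiA (x : ℝ) (q a : ℕ) : ℝ :=
  ∑ n ∈ (Finset.Icc 1 ⌊x⌋₊).filter (fun n : ℕ => n ≡ a [MOD q]), vonMangoldt n

/-- reduced residues -/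
def red (q : ℕ) : Finset ℕ := (Finset.range q).filter (fun a => a.Coprime q)

theorem sum_chi_psi {q₀ q : ℕ} (h : q₀ ∣ q) (hq : 1 ≤ q) (χ : DirichletCharacter ℂ q₀) (x : ℝ) :
    ∑ a ∈ red q, χ a * (psiA x q a : ℂ) =
      ∑ n ∈ (Finset.Icc 1 ⌊x⌋₊).filter (fun n => n.Coprime q), lam χ n := by
  have h1 : ∀ a ∈ red q, χ a * (psiA x q a : ℂ) =
      ∑ n ∈ Finset.Icc 1 ⌊x⌋₊, if n ≡ a [MOD q] then lam χ n else 0 := by
    intro a _
    rw [psiA, Finset.sum_filter]
    push_cast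
    rw [Finset.mul_sum]
    refine Finset.sum_congr rfl fun n _ => ?_
    split_ifs with h2
    · have h3 : ((a : ℕ) : ZMod q₀) = ((n : ℕ) : ZMod q₀) :=
        (ZMod.natCast_eq_natCast_iff _ _ _).2 ((h2.of_dvd h).symm)
      rw [lam, h3]
    · simp
  rw [Finset.sum_congr rfl h1, Finset.sum_comm, Finset.sum_filter]
  refine Finset.sum_congr rfl fun n _ => ?_
  have h4 : ∀ a ∈ red q, (if n ≡ a [MOD q] then lam χ n else 0) = if n % q = a then lam χ n else 0 := by
    intro a ha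
    have ha' := Finset.mem_range.1 (Finset.mem_filter.1 ha).1
    refine if_congr ?_ rfl rfl
    rw [Nat.ModEq, Nat.mod_eq_of_lt ha']
  rw [Finset.sum_congr rfl h4, Finset.sum_ite_eq]
  refine if_congr ?_ rfl rfl
  rw [red, Finset.mem_filter, Finset.mem_range]
  constructor
  · rintro ⟨_, h5⟩
    rw [Nat.coprime_iff_gcd_eq_one] at h5 ⊢
    rwa [Nat.gcd_comm, Nat.gcd_rec] 
  · intro h5
    refine ⟨Nat.mod_lt _ (by omega), ?_⟩
    rw [Nat.coprime_iff_gcd_eq_one] at h5 ⊢
    rwa [Nat.gcd_comm, Nat.gcd_rec] at h5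

theorem sum_chi {q₀ q : ℕ} [NeZero q₀] (h : q₀ ∣ q) (hq : 1 ≤ q) (χ : DirichletCharacter ℂ q₀) :
    ∑ a ∈ red q, χ (a : ZMod q₀) = q.totient * kap χ := by
  classical
  haveI : NeZero q := ⟨by omega⟩
  have h1 : ∀ a ∈ red q, χ (a : ZMod q₀) = DirichletCharacter.changeLevel h χ (a : ZMod q) := by
    intro a ha
    have ha' := (Finset.mem_filter.1 ha).2
    have h2 := DirichletCharacter.changeLevel_eq_cast_of_dvd χ h (ZMod.unitOfCoprime a ha')
    rw [ZMod.coe_unitOfCoprime] at h2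
    rw [h2]
    congr 1
    rw [ZMod.cast_natCast h]
  rw [Finset.sum_congr rfl h1]
  have h3 : ∑ a ∈ red q, DirichletCharacter.changeLevel h χ (a : ZMod q) =
      ∑ a : ZMod q, DirichletCharacter.changeLevel h χ a := by
    rw [red, Finset.sum_filter]
    refine Finset.sum_nbij' (fun a : ℕ => (a : ZMod q)) (fun a : ZMod q => a.val) ?_ ?_ ?_ ?_ ?_
    · intro a _
      exact Finset.mem_univ _
    · intro a _
      exact Finset.mem_range.2 (ZMod.val_lt a)
    · intro a ha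
      exact ZMod.val_cast_of_lt (Finset.mem_range.1 ha)
    · intro a _
      exact ZMod.natCast_zmod_val a
    · intro a _
      split_ifs with h4
      · rfl
      · exact (MulChar.map_nonunit _ (fun h5 => h4 ((ZMod.isUnit_iff_coprime a q).1 h5))).symm
  rw [h3]
  by_cases hχ : χ = 1
  · subst hχ
    rw [DirichletCharacter.changeLevel_one, MulChar.sum_one_eq_card_units, kap, if_pos rfl, mul_one,
      ZMod.card_units_eq_totient]
  · rw [kap, if_neg hχ, mul_zero]
    exact MulChar.sum_eq_zero_of_ne_one (fun h4 => hχ ((DirichletCharacter.changeLevel_eq_one_iff h).1 h4))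

/-- the total error modulo `q` -/
noncomputable def D (x : ℝ) (q : ℕ) : ℝ := ∑ a ∈ red q, |psiA x q a - x / q.totient|

theorem psiE_le {q₀ q : ℕ} [NeZero q₀] (h : q₀ ∣ q) (hq : 1 ≤ q) (χ : DirichletCharacter ℂ q₀) {x : ℝ} (hx : 1 ≤ x) :
    ‖psiE χ x‖ ≤ D x q + 2 * Real.log q * Real.log x := by
  have hfl : 1 ≤ ⌊x⌋₊ := Nat.floor_pos.2 hx
  have ht : (q.totient : ℂ) ≠ 0 := by
    exact_mod_cast (Nat.totient_pos.2 (by omega)).ne'
  have h1 : psiE χ x = (∑ a ∈ red q, χ a * ((psiA x q a - x / q.totient : ℝ) : ℂ)) +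
      ∑ n ∈ (Finset.Icc 1 ⌊x⌋₊).filter (fun n => ¬ n.Coprime q), lam χ n := by
    have h2 : ∑ a ∈ red q, χ a * ((psiA x q a - x / q.totient : ℝ) : ℂ) =
        (∑ a ∈ red q, χ a * (psiA x q a : ℂ)) - (∑ a ∈ red q, χ (a : ZMod q₀)) * (x / q.totient) := by
      rw [Finset.sum_mul, ← Finset.sum_sub_distrib]
      refine Finset.sum_congr rfl fun a _ => ?_
      push_cast
      ring
    rw [h2, sum_chi_psi h hq, sum_chi h hq, psiE,
      ← Finset.sum_filter_add_sum_filter_not (Finset.Icc 1 ⌊x⌋₊) (fun n => n.Coprime q)]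
    field_simp
    ring
  rw [h1]
  refine (norm_add_le _ _).trans (add_le_add ?_ ?_)
  · rw [D]
    refine (norm_sum_le _ _).trans (Finset.sum_le_sum fun a _ => ?_)
    rw [norm_mul, Complex.norm_real, Real.norm_eq_abs]
    exact mul_le_of_le_one_left (abs_nonneg _) (χ.norm_le_one _)
  · have h3 : ‖∑ n ∈ (Finset.Icc 1 ⌊x⌋₊).filter (fun n => ¬ n.Coprime q), lam χ n‖ ≤
        ∑ n ∈ (Finset.Icc 1 ⌊x⌋₊).filter (fun n => ¬ n.Coprime q), vonMangoldt n := by
      refine (norm_sum_le _ _).trans (Finset.sum_le_sum fun n _ => ?_)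
      rw [lam, norm_mul, Complex.norm_real, Real.norm_of_nonneg ArithmeticFunction.vonMangoldt_nonneg]
      exact mul_le_of_le_one_left ArithmeticFunction.vonMangoldt_nonneg (χ.norm_le_one _)
    refine h3.trans ((sum_ncop q ⌊x⌋₊ hq hfl).trans ?_)
    have h4 : Real.log (⌊x⌋₊ : ℝ) ≤ Real.log x :=
      Real.log_le_log (by exact_mod_cast hfl) (Nat.floor_le (by linarith))
    have h5 : 0 ≤ Real.log (⌊x⌋₊ : ℝ) := Real.log_nonneg (by exact_mod_cast hfl)
    have h6 : 0 ≤ Real.log (q : ℝ) := Real.log_nonneg (by exact_mod_cast hq)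
    exact mul_le_mul (omega_le q hq) h4 h5 (by positivity)

theorem log_lt_pow2 {κ : ℝ} (hκ : 0 < κ) : ∀ᶠ X : ℝ in atTop, 1 + 2 * (Real.log X * Real.log X) ≤ X ^ κ := by
  have h0 := isLittleO_log_rpow_atTop (half_pos hκ)
  have h1 : (fun X : ℝ => 1 + 2 * (Real.log X * Real.log X)) =o[atTop] fun X : ℝ => X ^ κ := by
    refine Asymptotics.IsLittleO.add ?_ (Asymptotics.IsLittleO.const_mul_left ?_ _)
    · exact Asymptotics.isLittleO_const_left.2 (Or.inr (tendsto_norm_atTop_atTop.comp (tendsto_rpow_atTop hκ)))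
    · refine (h0.mul h0).congr' EventuallyEq.rfl ?_
      filter_upwards [eventually_gt_atTop 0] with X hX
      rw [← Real.rpow_add hX, add_halves]
  filter_upwards [h1.bound one_pos, eventually_ge_atTop 0] with X hX hX0
  rw [one_mul, Real.norm_of_nonneg (Real.rpow_nonneg hX0 _)] at hX
  exact (le_abs_self _).trans hX

/-- **Every multiple of the modulus.** -/
theorem mod_window {q₀ : ℕ} [NeZero q₀] (χ : DirichletCharacter ℂ q₀) {ρ : ℂ} (h1 : ρ ≠ 1)
    (h0 : DirichletCharacter.LFunction χ ρ = 0) {θ δ : ℝ} (hθ : 0 ≤ θ) (hc : θ < ρ.re) (hd : 0 < δ) (hd1 : δ < 1) :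
    ∀ᶠ X : ℝ in atTop, ∃ x ∈ Icc (X ^ (1 - δ)) X, ∀ q : ℕ, q₀ ∣ q → 1 ≤ q → (q : ℝ) ≤ X → x ^ θ < D x q := by
  classical
  obtain ⟨b, hb⟩ : ∃ b, b = (θ + ρ.re) / 2 := ⟨_, rfl⟩
  have hw : ∀ᶠ X : ℝ in atTop, ∃ y ∈ Icc (X ^ (1 - δ)) X, y ^ b < ‖psiE χ y‖ := by
    have h2 := psi_window (fun χ' => if χ' = χ then (1 : ℂ) else 0) h1 (θ := b) (by
      simp only [ite_mul, one_mul, zero_mul]
      rw [Finset.sum_ite_eq' Finset.univ χ, if_pos (Finset.mem_univ _)]
      exact_mod_cast (L_order_pos χ h1 h0).ne') (by rw [hb]; linarith) hd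
    refine h2.mono fun X hX => ?_
    obtain ⟨y, hy, hy2⟩ := hX
    refine ⟨y, hy, ?_⟩
    simp only [ite_mul, one_mul, zero_mul] at hy2
    rwa [Finset.sum_ite_eq' Finset.univ χ, if_pos (Finset.mem_univ _)] at hy2
  -- `x ^ θ + 2 log X ^ 2 ≤ x ^ b`
  have hbθ : 0 < b - θ := by rw [hb]; linarith
  have h3 : ∀ᶠ X : ℝ in atTop, 1 + 2 * (Real.log X * Real.log X) ≤ X ^ ((1 - δ) * (b - θ)) := by
    have hpos : 0 < (1 - δ) * (b - θ) := mul_pos (by linarith) hbθ
    have h4 := log_lt_pow2 hpos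
    exact h4
  have h5 : Tendsto (fun X : ℝ => X ^ (1 - δ)) atTop atTop := tendsto_rpow_atTop (by linarith)
  filter_upwards [hw, h3, h5.eventually_ge_atTop 1, eventually_ge_atTop 1] with X hX hX3 hX5 hX1
  obtain ⟨x, hx, hx2⟩ := hX
  refine ⟨x, hx, fun q hq0 hq hqX => ?_⟩
  have hx1 : 1 ≤ x := hX5.trans hx.1
  have hx0 : 0 < x := by linarith
  have h6 := psiE_le hq0 hq χ hx1
  have h7 : 2 * Real.log q * Real.log x ≤ 2 * (Real.log X * Real.log X) := by
    have h8 : Real.log q ≤ Real.log X := Real.log_le_log (by exact_mod_cast hq) hqX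
    have h9 : Real.log x ≤ Real.log X := Real.log_le_log hx0 hx.2
    have h10 : 0 ≤ Real.log x := Real.log_nonneg hx1
    have h11 : 0 ≤ Real.log X := Real.log_nonneg hX1
    calc 2 * Real.log q * Real.log x ≤ 2 * Real.log X * Real.log X :=
          mul_le_mul (by linarith) h9 h10 (by linarith)
      _ = _ := by ring
  have h12 : X ^ ((1 - δ) * (b - θ)) ≤ x ^ (b - θ) := by
    rw [Real.rpow_mul (by linarith)]
    exact Real.rpow_le_rpow (by positivity) hx.1 hbθ.le
  have h13 : x ^ θ + 2 * (Real.log X * Real.log X) ≤ x ^ b := by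
    have h14 : (1 : ℝ) ≤ x ^ θ := Real.one_le_rpow hx1 hθ
    have h15 : 0 ≤ 2 * (Real.log X * Real.log X) := by
      have : 0 ≤ Real.log X := Real.log_nonneg hX1
      positivity
    calc x ^ θ + 2 * (Real.log X * Real.log X) ≤ x ^ θ * (1 + 2 * (Real.log X * Real.log X)) := by
          nlinarith
      _ ≤ x ^ θ * x ^ (b - θ) := mul_le_mul_of_nonneg_left (hX3.trans h12) (by linarith)
      _ = x ^ b := by rw [← Real.rpow_add hx0]; congr 1; ring
  linarith

end Pool.Agent.Q32.Ov
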