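import Pool.Agent.Q32.Ov.Mod

set_option autoImplicit false

/-! # Consequences of bounds for one modulus per `x` -/

open Filter Topology Set MeasureTheory Complex

namespace Pool.Agent.Q32.Ov

theorem red_card (q : ℕ) : (red q).card = q.totient := by
  rw [red, Nat.totient]
  congr 1
  ext a
  rw [Finset.mem_filter, Finset.mem_filter, Nat.coprime_comm]

theorem D_le {x K : ℝ} {q : ℕ} (hq : 1 ≤ q) (hK : 0 ≤ K)
    (h : ∀ a ∈ red q, |psiA x q a - x / q.totient| ≤ K / Real.sqrt q) : D x q ≤ Real.sqrt q * K := by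
  have hq0 : (0 : ℝ) < q := by exact_mod_cast hq
  have hs : 0 < Real.sqrt q := Real.sqrt_pos.2 hq0
  rw [D]
  refine (Finset.sum_le_sum h).trans ?_
  rw [Finset.sum_const, red_card, nsmul_eq_mul]
  have h1 : (q.totient : ℝ) ≤ q := by exact_mod_cast Nat.totient_le q
  calc (q.totient : ℝ) * (K / Real.sqrt q) ≤ q * (K / Real.sqrt q) :=
        mul_le_mul_of_nonneg_right h1 (by positivity)
    _ = Real.sqrt q * K := by
        have h2 : (q : ℝ) = Real.sqrt q * Real.sqrt q := (Real.mul_self_sqrt hq0.le).symm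
        nth_rewrite 1 [h2]
        field_simp

theorem D_sq (x : ℝ) (q : ℕ) : D x q ^ 2 ≤ q.totient * ∑ a ∈ red q, (psiA x q a - x / q.totient) ^ 2 := by
  rw [D]
  refine (sq_sum_le_card_mul_sum_sq).trans ?_
  rw [red_card]
  simp only [sq_abs, le_refl]

/-- **Zero-free half planes from a bound for one modulus per `x` on sparse windows.** -/
theorem free_of_D {q₀ : ℕ} [NeZero q₀] {τ : ℝ} (hτ : 0 ≤ τ)
    (h : ∀ ε : ℝ, 0 < ε → ∃ δ : ℝ, 0 < δ ∧ δ < 1 ∧ ∀ X₀ : ℝ, ∃ X : ℝ, X₀ ≤ X ∧ ∀ x : ℝ, X ^ (1 - δ) ≤ x → x ≤ X →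
      ∃ q : ℕ, q₀ ∣ q ∧ 1 ≤ q ∧ (q : ℝ) ≤ x ^ (τ + ε) ∧ D x q ≤ x ^ ((1 + τ) / 2 + 3 / 2 * ε))
    (χ : DirichletCharacter ℂ q₀) {s : ℂ} (hs : (1 + τ) / 2 < s.re) (hs1 : s ≠ 1 ∨ χ ≠ 1) :
    DirichletCharacter.LFunction χ s ≠ 0 := by
  intro h0
  have hs1' : s ≠ 1 := by
    rintro rfl
    rcases hs1 with h2 | h2
    · exact h2 rfl
    · exact DirichletCharacter.LFunction_apply_one_ne_zero h2 h0
  have hre : s.re < 1 := by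
    by_contra hcon
    push Not at hcon
    exact DirichletCharacter.LFunction_ne_zero_of_one_le_re χ (Or.inr hs1') hcon h0
  obtain ⟨ε, hε⟩ : ∃ ε : ℝ, ε = min (1 - τ) ((s.re - (1 + τ) / 2) / 2) := ⟨_, rfl⟩
  have hε0 : 0 < ε := by rw [hε]; exact lt_min (by linarith) (by linarith)
  have hε1 : ε ≤ 1 - τ := by rw [hε]; exact min_le_left _ _
  have hε2 : ε ≤ (s.re - (1 + τ) / 2) / 2 := by rw [hε]; exact min_le_right _ _
  obtain ⟨δ, hδ0, hδ1, hX⟩ := h ε hε0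
  obtain ⟨X₀, hX₀⟩ := eventually_atTop.1 (mod_window χ hs1' h0 (θ := (1 + τ) / 2 + 3 / 2 * ε) (by positivity)
    (by linarith) hδ0 hδ1)
  obtain ⟨X, hX1, hX2⟩ := hX (max X₀ 1)
  have hX1' : 1 ≤ X := (le_max_right _ _).trans hX1
  obtain ⟨x, ⟨hx1, hx2⟩, hx3⟩ := hX₀ X ((le_max_left _ _).trans hX1)
  have hx0 : 1 ≤ x := (Real.one_le_rpow hX1' (by linarith)).trans hx1
  obtain ⟨q, hq0, hq, hqx, hD⟩ := hX2 x hx1 hx2
  have h3 : (q : ℝ) ≤ X := hqx.trans (((Real.rpow_le_rpow_of_exponent_le hx0 (by linarith : τ + ε ≤ 1)).trans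
    (Real.rpow_one x).le).trans hx2)
  exact absurd hD (not_le.2 (hx3 q hq0 hq h3))

/-- Montgomery's bound for one modulus per `x` -/
theorem free_of_mont {q₀ : ℕ} [NeZero q₀] {τ : ℝ} (hτ : 0 ≤ τ)
    (h : ∀ ε : ℝ, 0 < ε → ∃ δ : ℝ, 0 < δ ∧ δ < 1 ∧ ∀ X₀ : ℝ, ∃ X : ℝ, X₀ ≤ X ∧ ∀ x : ℝ, X ^ (1 - δ) ≤ x → x ≤ X →
      ∃ q : ℕ, q₀ ∣ q ∧ 1 ≤ q ∧ (q : ℝ) ≤ x ^ (τ + ε) ∧
        ∀ a ∈ red q, |psiA x q a - x / q.totient| ≤ x ^ (1 / 2 + ε) / Real.sqrt q)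
    (χ : DirichletCharacter ℂ q₀) {s : ℂ} (hs : (1 + τ) / 2 < s.re) (hs1 : s ≠ 1 ∨ χ ≠ 1) :
    DirichletCharacter.LFunction χ s ≠ 0 := by
  refine free_of_D hτ (fun ε hε => ?_) χ hs hs1
  obtain ⟨δ, hδ0, hδ1, hX⟩ := h ε hε
  refine ⟨δ, hδ0, hδ1, fun X₀ => ?_⟩
  obtain ⟨X, hX1, hX2⟩ := hX (max X₀ 1)
  have hX1' : 1 ≤ X := (le_max_right _ _).trans hX1
  refine ⟨X, (le_max_left _ _).trans hX1, fun x hx1 hx2 => ?_⟩
  have hx0 : 1 ≤ x := (Real.one_le_rpow hX1' (by linarith)).trans hx1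
  have hxp : 0 < x := by linarith
  obtain ⟨q, hq0, hq, hqx, hb⟩ := hX2 x hx1 hx2
  refine ⟨q, hq0, hq, hqx, (D_le hq (Real.rpow_nonneg hxp.le _) hb).trans ?_⟩
  have h4 : Real.sqrt q ≤ x ^ ((τ + ε) / 2) := by
    rw [Real.sqrt_le_left (Real.rpow_nonneg hxp.le _), ← Real.rpow_natCast, ← Real.rpow_mul hxp.le]
    refine hqx.trans (le_of_eq ?_)
    congr 1
    push_cast
    ring
  calc Real.sqrt q * x ^ (1 / 2 + ε) ≤ x ^ ((τ + ε) / 2) * x ^ (1 / 2 + ε) :=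
        mul_le_mul_of_nonneg_right h4 (Real.rpow_nonneg hxp.le _)
    _ = x ^ ((1 + τ) / 2 + 3 / 2 * ε) := by rw [← Real.rpow_add hxp]; congr 1; ring

/-- an upper bound for the variance for one modulus per `x` -/
theorem free_of_var {q₀ : ℕ} [NeZero q₀] {τ : ℝ} (hτ : 0 ≤ τ)
    (h : ∀ ε : ℝ, 0 < ε → ∃ δ : ℝ, 0 < δ ∧ δ < 1 ∧ ∀ X₀ : ℝ, ∃ X : ℝ, X₀ ≤ X ∧ ∀ x : ℝ, X ^ (1 - δ) ≤ x → x ≤ X →
      ∃ q : ℕ, q₀ ∣ q ∧ 1 ≤ q ∧ (q : ℝ) ≤ x ^ (τ + ε) ∧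
        ∑ a ∈ red q, (psiA x q a - x / q.totient) ^ 2 ≤ x ^ (1 + ε))
    (χ : DirichletCharacter ℂ q₀) {s : ℂ} (hs : (1 + τ) / 2 < s.re) (hs1 : s ≠ 1 ∨ χ ≠ 1) :
    DirichletCharacter.LFunction χ s ≠ 0 := by
  refine free_of_D hτ (fun ε hε => ?_) χ hs hs1
  obtain ⟨δ, hδ0, hδ1, hX⟩ := h ε hε
  refine ⟨δ, hδ0, hδ1, fun X₀ => ?_⟩
  obtain ⟨X, hX1, hX2⟩ := hX (max X₀ 1)
  have hX1' : 1 ≤ X := (le_max_right _ _).trans hX1
  refine ⟨X, (le_max_left _ _).trans hX1, fun x hx1 hx2 => ?_⟩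
  have hx0 : 1 ≤ x := (Real.one_le_rpow hX1' (by linarith)).trans hx1
  have hxp : 0 < x := by linarith
  obtain ⟨q, hq0, hq, hqx, hb⟩ := hX2 x hx1 hx2
  refine ⟨q, hq0, hq, hqx, ?_⟩
  have h1 := D_sq x q
  have h2 : (q.totient : ℝ) ≤ x ^ (τ + ε) := (by exact_mod_cast Nat.totient_le q : (q.totient : ℝ) ≤ q).trans hqx
  have h3 : D x q ^ 2 ≤ (x ^ ((1 + τ) / 2 + ε)) ^ 2 := by
    refine h1.trans ?_
    calc (q.totient : ℝ) * ∑ a ∈ red q, (psiA x q a - x / q.totient) ^ 2 ≤ x ^ (τ + ε) * x ^ (1 + ε) :=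
          mul_le_mul h2 hb (Finset.sum_nonneg fun _ _ => sq_nonneg _) (Real.rpow_nonneg hxp.le _)
      _ = (x ^ ((1 + τ) / 2 + ε)) ^ 2 := by
          rw [← Real.rpow_add hxp, ← Real.rpow_natCast (x ^ ((1 + τ) / 2 + ε)), ← Real.rpow_mul hxp.le]
          congr 1
          push_cast
          ring
  have h4 : D x q ≤ x ^ ((1 + τ) / 2 + ε) := le_of_sq_le_sq h3 (Real.rpow_nonneg hxp.le _)
  refine h4.trans (Real.rpow_le_rpow_of_exponent_le hx0 (by linarith))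

end Pool.Agent.Q32.Ov
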