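import Pool.Agent.Q32.Ov.Chi

set_option autoImplicit false

/-! # Windows for combinations of prime counting functions -/

open Filter Topology Set MeasureTheory Complex

namespace Pool.Agent.Q32.Ov

theorem mellin_int {f : ℝ → ℂ} {B g : ℝ} (hf : Measurable f) (hB : ∀ y, 1 ≤ y → ‖f y‖ ≤ B * y ^ g) {s : ℂ}
    (hs : g < s.re) : IntegrableOn (fun y : ℝ => f y * (y : ℂ) ^ (-(s + 1))) (Ioi 1) := by
  have h1 : IntegrableOn (fun y : ℝ => B * y ^ (g - s.re - 1)) (Ioi 1) :=
    (integrableOn_Ioi_rpow_of_lt (by linarith) one_pos).const_mul B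
  refine Integrable.mono' h1 ?_ ?_
  · refine (hf.aestronglyMeasurable).mul ?_
    refine (ContinuousOn.aestronglyMeasurable ?_ measurableSet_Ioi)
    intro y hy
    refine ContinuousAt.continuousWithinAt ?_
    have : (y : ℂ) ∈ slitPlane := by
      rw [Complex.ofReal_mem_slitPlane]
      exact lt_trans one_pos hy
    exact (continuousAt_cpow_const this).comp Complex.continuous_ofReal.continuousAt
  · refine (ae_restrict_iff' measurableSet_Ioi).2 (Eventually.of_forall fun y hy => ?_)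
    have hy1 : (1 : ℝ) < y := hy
    have hy0 : 0 < y := by linarith
    rw [norm_mul, Complex.norm_cpow_eq_rpow_re_of_pos hy0]
    calc ‖f y‖ * y ^ (-(s + 1)).re ≤ (B * y ^ g) * y ^ (-(s + 1)).re :=
          mul_le_mul_of_nonneg_right (hB y hy1.le) (Real.rpow_nonneg hy0.le _)
      _ = B * y ^ (g - s.re - 1) := by
          rw [mul_assoc, ← Real.rpow_add hy0]
          congr 2
          simp only [neg_re, add_re, one_re]
          ring

theorem id_bd (y : ℝ) (hy : 1 ≤ y) : ‖(y : ℂ)‖ ≤ 1 * y ^ (2 : ℝ) := by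
  have hy0 : 0 ≤ y := by linarith
  rw [Complex.norm_real, Real.norm_of_nonneg hy0, one_mul, show (2 : ℝ) = ((2 : ℕ) : ℝ) by norm_num,
    Real.rpow_natCast, sq]
  nlinarith

theorem mellin_id {s : ℂ} (hs : 1 < s.re) :
    ∫ y in Ioi (1 : ℝ), (y : ℂ) * (y : ℂ) ^ (-(s + 1)) = 1 / (s - 1) := by
  have hs1 : s ≠ 1 := by
    rintro rfl
    simp at hs
  have h1 : ∫ y in Ioi (1 : ℝ), (y : ℂ) * (y : ℂ) ^ (-(s + 1)) = ∫ y in Ioi (1 : ℝ), (y : ℂ) ^ (-s) := by
    refine setIntegral_congr_fun measurableSet_Ioi fun y hy => ?_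
    have hy1 : (1 : ℝ) < y := hy
    have hy0 : (y : ℂ) ≠ 0 := by exact_mod_cast (by linarith : y ≠ 0)
    beta_reduce
    rw [show -s = 1 + -(s + 1) by ring, Complex.cpow_add _ _ hy0, Complex.cpow_one]
  rw [h1, integral_Ioi_cpow_of_lt (by simpa using hs) one_pos]
  simp only [Complex.ofReal_one, Complex.one_cpow]
  have h2 : s - 1 ≠ 0 := sub_ne_zero.2 hs1
  have h3 : -s + 1 ≠ 0 := by
    intro h
    apply h2
    linear_combination -h
  rw [div_eq_div_iff h3 h2]
  ring

variable {q : ℕ} [NeZero q]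

theorem order_EF (χ : DirichletCharacter ℂ q) {ρ : ℂ} (h : ρ ≠ 1) :
    analyticOrderNatAt (EF χ) ρ = analyticOrderNatAt (DirichletCharacter.LFunction χ) ρ := by
  by_cases hχ : χ = 1
  · subst hχ
    have h1 : EF (1 : DirichletCharacter ℂ q) =ᶠ[𝓝 ρ]
        (fun s => s - 1) * DirichletCharacter.LFunction (1 : DirichletCharacter ℂ q) := by
      filter_upwards [isOpen_ne.mem_nhds h] with s hs
      exact EF_triv hs
    have h2 : AnalyticAt ℂ (DirichletCharacter.LFunction (1 : DirichletCharacter ℂ q)) ρ := by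
      rw [Complex.analyticAt_iff_eventually_differentiableAt]
      filter_upwards [isOpen_ne.mem_nhds h] with s hs
      exact DirichletCharacter.differentiableAt_LFunction _ s (Or.inl hs)
    have h3 : AnalyticAt ℂ (fun s : ℂ => s - 1) ρ := by fun_prop
    have h4 : analyticOrderAt (fun s : ℂ => s - 1) ρ = 0 :=
      (h3.analyticOrderAt_eq_zero).2 (sub_ne_zero.2 h)
    rw [analyticOrderNatAt, analyticOrderAt_congr h1, analyticOrderAt_mul h3 h2, h4, zero_add]
    rfl
  · rw [EF, if_neg hχ]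

/-- the error term of the twisted prime counting function -/
noncomputable def psiE (χ : DirichletCharacter ℂ q) (y : ℝ) : ℂ :=
  (∑ k ∈ Finset.Icc 1 ⌊y⌋₊, lam χ k) - kap χ * y

theorem psiE_meas (χ : DirichletCharacter ℂ q) : Measurable (psiE χ) :=
  (measurable_sum (lam χ)).sub (Complex.measurable_ofReal.const_mul _)

theorem kap_norm (χ : DirichletCharacter ℂ q) : ‖kap χ‖ ≤ 1 := by
  rw [kap]
  split_ifs <;> simp

theorem psiE_bd (χ : DirichletCharacter ℂ q) (y : ℝ) (hy : 1 ≤ y) : ‖psiE χ y‖ ≤ 2 * y ^ (2 : ℝ) := by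
  have h1 := sum_bd (lam_bd χ) y hy
  have h2 := id_bd y hy
  have h3 : ‖kap χ * (y : ℂ)‖ ≤ 1 * y ^ (2 : ℝ) := by
    rw [norm_mul]
    calc ‖kap χ‖ * ‖(y : ℂ)‖ ≤ 1 * ‖(y : ℂ)‖ := mul_le_mul_of_nonneg_right (kap_norm χ) (norm_nonneg _)
      _ = ‖(y : ℂ)‖ := one_mul _
      _ ≤ _ := h2
  exact (norm_sub_le _ _).trans (by linarith)

theorem psiE_mellin (χ : DirichletCharacter ℂ q) {s : ℂ} (hs : 2 < s.re) :
    s * ∫ y in Ioi (1 : ℝ), psiE χ y * (y : ℂ) ^ (-(s + 1)) = -kap χ - deriv (EF χ) s / EF χ s := by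
  have hs1 : s ≠ 1 := by
    rintro rfl
    norm_num at hs
  have h1 := lam_mellin χ hs
  have h2 := mellin_id (s := s) (by linarith)
  have h3 : ∫ y in Ioi (1 : ℝ), psiE χ y * (y : ℂ) ^ (-(s + 1)) =
      (∫ y in Ioi (1 : ℝ), (∑ k ∈ Finset.Icc 1 ⌊y⌋₊, lam χ k) * (y : ℂ) ^ (-(s + 1))) -
        kap χ * ∫ y in Ioi (1 : ℝ), (y : ℂ) * (y : ℂ) ^ (-(s + 1)) := by
    rw [← integral_const_mul, ← integral_sub]
    · refine integral_congr_ae (Eventually.of_forall fun y => ?_)
      beta_reduce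
      rw [psiE]
      ring
    · exact mellin_int (measurable_sum _) (sum_bd (lam_bd χ)) hs
    · exact (mellin_int Complex.measurable_ofReal id_bd hs).const_mul _
  rw [h3, mul_sub, h1, h2]
  have h4 : s - 1 ≠ 0 := sub_ne_zero.2 hs1
  have h5 : s * (kap χ * (1 / (s - 1))) = kap χ + kap χ / (s - 1) := by
    field_simp
    ring
  rw [h5]
  ring

/-- **Windows for combinations of prime counting functions.** -/
theorem psi_window (c : DirichletCharacter ℂ q → ℂ) {ρ : ℂ} (h1 : ρ ≠ 1)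
    (hρ : ∑ χ, c χ * (analyticOrderNatAt (DirichletCharacter.LFunction χ) ρ) ≠ 0)
    {θ δ : ℝ} (hc : θ < ρ.re) (hd : 0 < δ) :
    ∀ᶠ X : ℝ in atTop, ∃ y ∈ Icc (X ^ (1 - δ)) X, y ^ θ < ‖∑ χ, c χ * psiE χ y‖ := by
  classical
  refine log_window (F := fun χ : DirichletCharacter ℂ q => EF χ) (c := c) (P := fun _ => -∑ χ, c χ * kap χ)
    (g := 2) (B := ∑ χ, ‖c χ‖ * 2) EF_diff (differentiable_const _) (fun χ s hs => EF_ne χ (by linarith))
    (Finset.measurable_fun_sum _ fun χ _ => (psiE_meas χ).const_mul _) ?_ ?_ (ρ := ρ) ?_ hc hd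
  · intro y hy
    rw [Finset.sum_mul]
    refine (norm_sum_le _ _).trans (Finset.sum_le_sum fun χ _ => ?_)
    rw [norm_mul, mul_assoc]
    exact mul_le_mul_of_nonneg_left (psiE_bd χ y hy) (norm_nonneg _)
  · intro s hs
    have h3 : ∫ y in Ioi (1 : ℝ), (∑ χ, c χ * psiE χ y) * (y : ℂ) ^ (-(s + 1)) =
        ∑ χ, c χ * ∫ y in Ioi (1 : ℝ), psiE χ y * (y : ℂ) ^ (-(s + 1)) := by
      simp_rw [← integral_const_mul]
      rw [← integral_finset_sum]
      · refine integral_congr_ae (Eventually.of_forall fun y => ?_)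
        beta_reduce
        rw [Finset.sum_mul]
        exact Finset.sum_congr rfl fun χ _ => by ring
      · intro χ _
        exact (mellin_int (psiE_meas χ) (psiE_bd χ) hs).const_mul _
    rw [h3, Finset.mul_sum]
    have h4 : ∀ χ : DirichletCharacter ℂ q, s * (c χ * ∫ y in Ioi (1 : ℝ), psiE χ y * (y : ℂ) ^ (-(s + 1))) =
        -(c χ * kap χ) - c χ * (deriv (EF χ) s / EF χ s) := by
      intro χ
      rw [mul_left_comm, psiE_mellin χ hs]
      ring
    rw [Finset.sum_congr rfl fun χ _ => h4 χ, Finset.sum_sub_distrib, Finset.sum_neg_distrib]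
  · rw [Finset.sum_congr rfl fun χ _ => by rw [order_EF χ h1]]
    exact hρ

end Pool.Agent.Q32.Ov
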