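import Pool.Agent.Q32.Ov.Twist

set_option autoImplicit false

/-! # The sup norm of the Möbius exponential sum at every length -/

open Filter Topology Set MeasureTheory Complex

namespace Pool.Agent.Q32.Ov

theorem log_lt_pow {κ : ℝ} (hκ : 0 < κ) (q : ℝ) : ∀ᶠ X : ℝ in atTop, q * (2 + Real.log X) ≤ X ^ κ := by
  have h1 : (fun X : ℝ => q * (2 + Real.log X)) =o[atTop] fun X : ℝ => X ^ κ := by
    refine Asymptotics.IsLittleO.const_mul_left ?_ _
    refine Asymptotics.IsLittleO.add ?_ (isLittleO_log_rpow_atTop hκ)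
    exact (Asymptotics.isLittleO_const_left.2 (Or.inr (by
      exact (tendsto_norm_atTop_atTop.comp (tendsto_rpow_atTop hκ)))))
  filter_upwards [h1.bound one_pos, eventually_ge_atTop 0] with X hX hX0
  rw [one_mul, Real.norm_of_nonneg (Real.rpow_nonneg hX0 _)] at hX
  exact (le_abs_self _).trans hX

/-- the Möbius exponential sum -/
noncomputable def S (R : ℕ) (x : ℝ) : ℂ := ∑ n ∈ Finset.Icc 1 R, ((ArithmeticFunction.moebius n : ℤ) : ℂ) * e (n * x)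

theorem S_fract (R : ℕ) (x : ℝ) : S R (Int.fract x) = S R x := by
  rw [S, S]
  refine Finset.sum_congr rfl fun n _ => ?_
  congr 1
  have h1 : (n : ℝ) * x = n * Int.fract x + ((n * ⌊x⌋ : ℤ) : ℝ) := by
    push_cast
    rw [← mul_add, Int.fract_add_floor]
  rw [h1, e_add, e_int, mul_one]

/-- **A zero makes the sup norm large at every large length.** -/
theorem sup_all {q : ℕ} [NeZero q] (χ : DirichletCharacter ℂ q) {ρ : ℂ} (h0 : DirichletCharacter.LFunction χ ρ = 0)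
    (h1 : ρ ≠ 1) {θ : ℝ} (hθ0 : 0 ≤ θ) (hθ : θ < ρ.re) :
    ∀ᶠ R : ℕ in atTop, ∃ x ∈ Icc (0 : ℝ) 1, (R : ℝ) ^ θ < ‖S R x‖ := by
  obtain ⟨b, hb⟩ : ∃ b, b = (θ + ρ.re) / 2 := ⟨_, rfl⟩
  have hb0 : 0 < b := by rw [hb]; linarith
  have hbρ : b < ρ.re := by rw [hb]; linarith
  have hθb : θ < b := by rw [hb]; linarith
  obtain ⟨δ, hδ⟩ : ∃ δ : ℝ, δ = 1 - (θ + b) / (2 * b) := ⟨_, rfl⟩
  have hδ0 : 0 < δ := by
    rw [hδ, sub_pos, div_lt_one (by linarith)]
    linarith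
  have hδb : (1 - δ) * b = (θ + b) / 2 := by
    rw [hδ, sub_sub_cancel]
    field_simp
  have hδ1 : 0 ≤ 1 - δ := by
    rw [hδ, sub_sub_cancel]
    positivity
  have hw := mu_window χ h0 h1 hbρ hδ0
  have hl := log_lt_pow (κ := (b - θ) / 2) (by linarith) q
  filter_upwards [tendsto_natCast_atTop_atTop.eventually hw, tendsto_natCast_atTop_atTop.eventually hl,
    eventually_ge_atTop 1] with R hR1 hR2 hR
  obtain ⟨y, ⟨hy1, hy2⟩, hy3⟩ := hR1
  by_contra hcon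
  push Not at hcon
  have hR0 : (1 : ℝ) ≤ R := by exact_mod_cast hR
  have hRp : (0 : ℝ) < R := by linarith
  have hS : ∀ x : ℝ, ‖∑ n ∈ Finset.Icc 1 R, ((ArithmeticFunction.moebius n : ℤ) : ℂ) * e (n * x)‖ ≤ (R : ℝ) ^ θ := by
    intro x
    have h2 := hcon (Int.fract x) ⟨Int.fract_nonneg x, (Int.fract_lt_one x).le⟩
    rw [S_fract] at h2
    exact h2
  have hyR : ⌊y⌋₊ ≤ R := Nat.floor_le_of_le hy2
  have h3 := chi_sum (Nat.one_le_iff_ne_zero.2 (NeZero.ne q)) χ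
    (fun n => ((ArithmeticFunction.moebius n : ℤ) : ℂ)) hR hyR hS
  have h4 : (R : ℝ) ^ ((θ + b) / 2) ≤ y ^ b := by
    rw [← hδb, Real.rpow_mul hRp.le]
    exact Real.rpow_le_rpow (Real.rpow_nonneg hRp.le _) hy1 hb0.le
  have h5 : y ^ b < q * ((2 + Real.log R) * (R : ℝ) ^ θ) := lt_of_lt_of_le hy3 h3
  have h6 : q * ((2 + Real.log R) * (R : ℝ) ^ θ) ≤ (R : ℝ) ^ ((b - θ) / 2) * (R : ℝ) ^ θ := by
    rw [← mul_assoc]
    exact mul_le_mul_of_nonneg_right hR2 (Real.rpow_nonneg hRp.le _)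
  rw [← Real.rpow_add hRp] at h6
  have h7 : (b - θ) / 2 + θ = (θ + b) / 2 := by ring
  rw [h7] at h6
  linarith

end Pool.Agent.Q32.Ov
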