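import Pool.Agent.Q32.Ov.Comp

set_option autoImplicit false

/-! # Character sums and exponential sums -/

open Filter Topology Set MeasureTheory Complex

namespace Pool.Agent.Q32.Ov

/-- orthogonality -/
theorem orth_gen {q : ℕ} (hq : 1 ≤ q) (k : ℤ) :
    ∑ h ∈ Finset.range q, e (h * (k / q)) = if (q : ℤ) ∣ k then (q : ℂ) else 0 := by
  have hR0 : (0 : ℝ) < q := by exact_mod_cast hq
  have hpi : (2 * Real.pi * I : ℂ) ≠ 0 := by
    simp [Real.pi_ne_zero]
  split_ifs with h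
  · obtain ⟨m, rfl⟩ := h
    have h1 : ∀ h : ℕ, e (h * (((q * m : ℤ) : ℝ) / q)) = 1 := by
      intro h
      have h2 : (h : ℝ) * (((q * m : ℤ) : ℝ) / q) = ((h * m : ℤ) : ℝ) := by
        push_cast
        field_simp
      rw [h2, e_int]
    rw [Finset.sum_congr rfl fun h _ => h1 h, Finset.sum_const, Finset.card_range, nsmul_eq_mul, mul_one]
  · simp_rw [e_nat_mul]
    have h1 : e (k / q) ≠ 1 := by
      intro h1
      rw [e, Complex.exp_eq_one_iff] at h1
      obtain ⟨n, hn⟩ := h1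
      apply h
      have h3 : (((k / q : ℝ)) : ℂ) = n := by
        have h4 : (2 * Real.pi * I : ℂ) * ((k / q : ℝ) : ℂ) = (2 * Real.pi * I : ℂ) * n := by
          rw [hn]; ring
        exact mul_left_cancel₀ hpi h4
      have h5 : (k / q : ℝ) = n := by exact_mod_cast h3
      rw [div_eq_iff hR0.ne'] at h5
      refine ⟨n, ?_⟩
      rw [mul_comm]
      exact_mod_cast h5
    rw [geom_sum_eq h1, ← e_nat_mul, mul_div_cancel₀ _ hR0.ne', e_int, sub_self, zero_div]

/-- the coefficients -/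
noncomputable def coef {q : ℕ} (χ : DirichletCharacter ℂ q) (a : ℕ) : ℂ :=
  (1 / (q : ℂ)) * ∑ b ∈ Finset.range q, χ b * e (-(a * (b / q)))

theorem coef_norm {q : ℕ} (hq : 1 ≤ q) (χ : DirichletCharacter ℂ q) (a : ℕ) : ‖coef χ a‖ ≤ 1 := by
  have hR0 : (0 : ℝ) < q := by exact_mod_cast hq
  rw [coef, norm_mul, norm_div, norm_one, Complex.norm_natCast]
  have h1 : ‖∑ b ∈ Finset.range q, χ b * e (-(a * (b / q)))‖ ≤ q := by
    refine (norm_sum_le _ _).trans ?_
    calc ∑ b ∈ Finset.range q, ‖χ b * e (-(a * (b / q)))‖ ≤ ∑ b ∈ Finset.range q, (1 : ℝ) := by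
          refine Finset.sum_le_sum fun b _ => ?_
          rw [norm_mul, e_norm, mul_one]
          exact χ.norm_le_one _
      _ = q := by simp
  calc 1 / (q : ℝ) * ‖∑ b ∈ Finset.range q, χ b * e (-(a * (b / q)))‖ ≤ 1 / (q : ℝ) * q :=
        mul_le_mul_of_nonneg_left h1 (by positivity)
    _ = 1 := by field_simp

theorem chi_exp {q : ℕ} (hq : 1 ≤ q) (χ : DirichletCharacter ℂ q) (n : ℕ) :
    χ n = ∑ a ∈ Finset.range q, coef χ a * e (n * (a / q)) := by
  have hRc : (q : ℂ) ≠ 0 := by exact_mod_cast (by omega : q ≠ 0)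
  have h1 : ∀ a ∈ Finset.range q, coef χ a * e (n * (a / q)) =
      (1 / (q : ℂ)) * ∑ b ∈ Finset.range q, χ b * e (a * ((((n : ℤ) - (b : ℤ) : ℤ) : ℝ) / q)) := by
    intro a _
    rw [coef, mul_assoc, Finset.sum_mul]
    congr 1
    refine Finset.sum_congr rfl fun b _ => ?_
    rw [mul_assoc, ← e_add]
    congr 2
    push_cast
    ring
  rw [Finset.sum_congr rfl h1, ← Finset.mul_sum, Finset.sum_comm]
  have h2 : ∀ b ∈ Finset.range q, ∑ a ∈ Finset.range q, χ b * e (a * ((((n : ℤ) - (b : ℤ) : ℤ) : ℝ) / q)) =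
      if n % q = b then (q : ℂ) * χ b else 0 := by
    intro b hb
    have hb' := Finset.mem_range.1 hb
    rw [← Finset.mul_sum, orth_gen hq]
    by_cases h : n % q = b
    · rw [if_pos h, if_pos, mul_comm]
      rw [← h]
      push_cast
      exact Int.dvd_self_sub_emod
    · rw [if_neg h, if_neg, mul_zero]
      intro h3
      apply h
      have h4 : (b : ℤ) ≡ (n : ℤ) [ZMOD (q : ℤ)] := (Int.modEq_iff_dvd).2 h3
      have h5 : b ≡ n [MOD q] := (Int.natCast_modEq_iff).1 h4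
      rw [Nat.ModEq, Nat.mod_eq_of_lt hb'] at h5
      exact h5.symm
  rw [Finset.sum_congr rfl h2, Finset.sum_ite_eq, if_pos (Finset.mem_range.2 (Nat.mod_lt _ (by omega))), ← mul_assoc,
    one_div, inv_mul_cancel₀ hRc, one_mul, ZMod.natCast_mod]

/-- character sums are bounded by exponential sums -/
theorem chi_sum {q : ℕ} (hq : 1 ≤ q) (χ : DirichletCharacter ℂ q) (a : ℕ → ℂ) {R y : ℕ} (hR : 1 ≤ R) (hy : y ≤ R)
    {S : ℝ} (hS : ∀ x : ℝ, ‖∑ n ∈ Finset.Icc 1 R, a n * e (n * x)‖ ≤ S) :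
    ‖∑ n ∈ Finset.Icc 1 y, χ n * a n‖ ≤ q * ((2 + Real.log R) * S) := by
  have h1 : ∑ n ∈ Finset.Icc 1 y, χ n * a n = ∑ b ∈ Finset.range q, coef χ b *
      ∑ n ∈ Finset.Icc 1 y, a n * e (n * (b / q)) := by
    simp_rw [Finset.mul_sum]
    rw [Finset.sum_comm]
    refine Finset.sum_congr rfl fun n _ => ?_
    rw [chi_exp hq χ n, Finset.sum_mul]
    refine Finset.sum_congr rfl fun b _ => ?_
    ring
  rw [h1]
  refine (norm_sum_le _ _).trans ?_
  calc ∑ b ∈ Finset.range q, ‖coef χ b * ∑ n ∈ Finset.Icc 1 y, a n * e (n * (b / q))‖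
      ≤ ∑ b ∈ Finset.range q, ((2 + Real.log R) * S) := by
        refine Finset.sum_le_sum fun b _ => ?_
        rw [norm_mul]
        calc ‖coef χ b‖ * ‖∑ n ∈ Finset.Icc 1 y, a n * e (n * (b / q))‖
            ≤ 1 * ‖∑ n ∈ Finset.Icc 1 y, a n * e (n * (b / q))‖ :=
              mul_le_mul_of_nonneg_right (coef_norm hq χ b) (norm_nonneg _)
          _ = ‖∑ n ∈ Finset.Icc 1 y, a n * e (n * (b / q))‖ := one_mul _
          _ ≤ _ := complete a hR hy hS _
    _ = _ := by rw [Finset.sum_const, Finset.card_range, nsmul_eq_mul]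

end Pool.Agent.Q32.Ov
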